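import Pool.Agent.H84.GL.Targets3
import Pool.Agent.H22.LPP.Prob

/-! # Part A: the sharp upper tail -/

open MeasureTheory ProbabilityTheory
open scoped ENNReal

namespace Pool.Agent.H84.GL

open Pool.Agent.H99.NS Pool.Agent.H22.LPP

theorem cf_pos {q : ℝ} (hq0 : 0 < q) (hq1 : q < 1) : 0 < cf q := by
  have h1 : 0 < √q := Real.sqrt_pos.2 hq0
  have h2 : √q < 1 := by
    rw [Real.sqrt_lt' one_pos]; simpa using hq1
  unfold cf cc
  have h3 : 0 < 1 - √q := by linarith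
  positivity

/-- Powers of `K` in the optimisation. -/
theorem opt_powers {c K : ℝ} (hc : 0 < c) (hK : 0 < K) :
    √(K / (3 * c)) * K = (3 * c) ^ (-(1:ℝ)/2) * K ^ ((3:ℝ)/2) ∧
    c * √(K / (3 * c)) ^ 3 = 1 / 3 * ((3 * c) ^ (-(1:ℝ)/2) * K ^ ((3:ℝ)/2)) ∧
    √(K / (3 * c)) ^ 3 = (3 * c) ^ (-(3:ℝ)/2) * K ^ ((3:ℝ)/2) := by
  have h3 : 0 < 3 * c := by linarith
  have hs : √(K / (3 * c)) = K ^ ((1:ℝ)/2) * (3 * c) ^ (-(1:ℝ)/2) := by
    rw [Real.sqrt_eq_rpow, Real.div_rpow hK.le h3.le, div_eq_mul_inv, ← Real.rpow_neg h3.le]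
    norm_num
  have hK1 : K ^ ((1:ℝ)/2) * K = K ^ ((3:ℝ)/2) := by
    nth_rewrite 2 [← Real.rpow_one K]
    rw [← Real.rpow_add hK]; norm_num
  have hK3 : (K ^ ((1:ℝ)/2)) ^ 3 = K ^ ((3:ℝ)/2) := by
    rw [← Real.rpow_natCast, ← Real.rpow_mul hK.le]; norm_num
  have hc3 : ((3 * c) ^ (-(1:ℝ)/2)) ^ 3 = (3 * c) ^ (-(3:ℝ)/2) := by
    rw [← Real.rpow_natCast, ← Real.rpow_mul h3.le]; norm_num
  have hcc : 3 * c * (3 * c) ^ (-(3:ℝ)/2) = (3 * c) ^ (-(1:ℝ)/2) := by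
    nth_rewrite 1 [← Real.rpow_one (3 * c)]
    rw [← Real.rpow_add h3]; norm_num
  refine ⟨?_, ?_, ?_⟩
  · rw [hs, mul_comm (K ^ ((1:ℝ)/2)), mul_assoc, hK1]
  · rw [hs, mul_pow, hK3, hc3, ← hcc]; ring
  · rw [hs, mul_pow, hK3, hc3]; ring

/-- Sharp upper tail with a free constant in the range of displacements. -/
theorem UTS_gen (h_UTMS : D_UTMS) : ∀ q : ℝ, 0 < q → q < 1 → ∀ ε : ℝ, 0 < ε → ∀ B : ℝ, 0 < B →
  ∃ K₀ : ℝ, 1 ≤ K₀ ∧
  ∀ K : ℝ, K₀ ≤ K → ∃ N₀ : ℝ, ∀ u v : Site, Reach u v → u.1 < v.1 → N₀ ≤ len u v →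
    |dsp u v| ≤ B * K * (len u v) ^ ((2:ℝ)/3) →
    PE q {ω | par q u v + K * (len u v) ^ ((1:ℝ)/3) ≤ T ω u v} ≤
      ENNReal.ofReal (Real.exp (-((cst q - ε) * K ^ ((3:ℝ)/2)))) := by
  intro q hq0 hq1 ε hε B hB
  have hc := cf_pos hq0 hq1
  set c₀ := cf q with hc0
  have h3 : 0 < 3 * c₀ := by linarith
  set e₁ := ε / 2 * (3 * c₀) ^ ((3:ℝ)/2) with he1
  have he1pos : 0 < e₁ := by positivity
  obtain ⟨C, δ, hC, hδ, H⟩ := h_UTMS q e₁ hq0 hq1 he1pos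
  refine ⟨1, le_rfl, fun K hK => ?_⟩
  have hK0 : 0 < K := by linarith
  set L := √(K / (3 * c₀)) with hL
  have hL0 : 0 < L := Real.sqrt_pos.2 (by positivity)
  -- conditions on N
  obtain ⟨N₀, hN0, hNc⟩ : ∃ N₀ : ℝ, 1 ≤ N₀ ∧ ∀ N : ℝ, N₀ ≤ N →
      B * K ≤ δ * N ^ ((1:ℝ)/3) ∧ L ≤ δ * N ^ ((1:ℝ)/3) ∧ C * L ≤ ε / 2 * N ^ ((1:ℝ)/3) := by
    set M := max (B * K / δ) (max (L / δ) (C * L / (ε / 2))) with hM
    refine ⟨max 1 (M ^ 3), le_max_left _ _, fun N hN => ?_⟩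
    have hN1 : 1 ≤ N := le_trans (le_max_left _ _) hN
    have hM0 : 0 ≤ M := le_trans (by positivity) (le_max_left _ _)
    have hMN : M ≤ N ^ ((1:ℝ)/3) := by
      have h1 : M ^ 3 ≤ N := le_trans (le_max_right _ _) hN
      have h2 : (M ^ 3) ^ ((1:ℝ)/3) ≤ N ^ ((1:ℝ)/3) :=
        Real.rpow_le_rpow (by positivity) h1 (by norm_num)
      have h4 : (M ^ 3) ^ ((1:ℝ)/3) = M := by
        rw [← Real.rpow_natCast, ← Real.rpow_mul hM0]; norm_num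
      rwa [h4] at h2
    have a1 : B * K / δ ≤ N ^ ((1:ℝ)/3) := le_trans (le_max_left _ _) hMN
    have a2 : L / δ ≤ N ^ ((1:ℝ)/3) :=
      le_trans (le_trans (le_max_left _ _) (le_max_right _ _)) hMN
    have a3 : C * L / (ε / 2) ≤ N ^ ((1:ℝ)/3) :=
      le_trans (le_trans (le_max_right _ _) (le_max_right _ _)) hMN
    rw [div_le_iff₀ hδ] at a1 a2
    rw [div_le_iff₀ (by positivity)] at a3
    exact ⟨by linarith, by linarith, by linarith⟩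
  refine ⟨N₀, fun u v huv hlt hN hd => ?_⟩
  set N := len u v with hNdef
  have hN1 : 1 ≤ N := le_trans hN0 hN
  have hNpos : 0 < N := by linarith
  obtain ⟨b1, b2, b3⟩ := hNc N hN
  set t := N ^ ((1:ℝ)/3) with ht
  have ht0 : 0 < t := Real.rpow_pos_of_pos hNpos _
  have ht3 : t ^ 3 = N := by
    rw [ht, ← Real.rpow_natCast, ← Real.rpow_mul hNpos.le]; norm_num
  have ht2 : N ^ ((2:ℝ)/3) = t ^ 2 := by
    rw [ht, ← Real.rpow_natCast, ← Real.rpow_mul hNpos.le]; norm_num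
  have hd' : |dsp u v| ≤ δ * N := by
    refine hd.trans ?_
    rw [ht2, ← ht3]
    nlinarith [sq_nonneg t, mul_le_mul_of_nonneg_right b1 (sq_nonneg t)]
  set lam := L / t with hlam
  have hlam0 : 0 ≤ lam := by positivity
  have hlamδ : lam ≤ δ := by
    rw [hlam, div_le_iff₀ ht0]; exact b2
  have key := H lam hlam0 hlamδ u v huv hlt hd'
  have hch := chernoff (PE q) (fun ω => T ω u v) (measurable_T u v) lam (par q u v + K * t) hlam0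
  refine hch.trans ?_
  calc ex (-(lam * (par q u v + K * t))) * ∫⁻ ω, ex (lam * T ω u v) ∂(PE q)
      ≤ ex (-(lam * (par q u v + K * t))) *
        ex (lam * par q u v + (c₀ + e₁) * N * lam ^ 3 + C * lam) := by gcongr
    _ = ex (-(lam * (K * t)) + (c₀ + e₁) * N * lam ^ 3 + C * lam) := by
        rw [← ex_add]; congr 1; ring
    _ ≤ ex (-((cst q - ε) * K ^ ((3:ℝ)/2))) := by
        apply ex_mono
        obtain ⟨o1, o2, o3⟩ := opt_powers hc hK0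
        have e1 : lam * (K * t) = L * K := by rw [hlam]; field_simp
        have e2 : N * lam ^ 3 = L ^ 3 := by
          rw [hlam, div_pow, ht3]; field_simp
        have e3 : C * lam ≤ ε / 2 := by
          rw [hlam, ← mul_div_assoc, div_le_iff₀ ht0]; exact b3
        have hKp : 1 ≤ K ^ ((3:ℝ)/2) := Real.one_le_rpow hK (by norm_num)
        have e4 : e₁ * L ^ 3 = ε / 2 * K ^ ((3:ℝ)/2) := by
          rw [he1, o3]
          have : (3 * c₀) ^ ((3:ℝ)/2) * (3 * c₀) ^ (-(3:ℝ)/2) = 1 := by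
            rw [← Real.rpow_add h3]; norm_num
          calc ε / 2 * (3 * c₀) ^ ((3:ℝ)/2) * ((3 * c₀) ^ (-(3:ℝ)/2) * K ^ ((3:ℝ)/2))
              = ε / 2 * ((3 * c₀) ^ ((3:ℝ)/2) * (3 * c₀) ^ (-(3:ℝ)/2)) * K ^ ((3:ℝ)/2) := by ring
            _ = _ := by rw [this]; ring
        have e5 : cst q = 2 / 3 * (3 * c₀) ^ (-(1:ℝ)/2) := rfl
        have : (c₀ + e₁) * N * lam ^ 3 = c₀ * L ^ 3 + e₁ * L ^ 3 := by
          rw [mul_assoc, e2]; ring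
        rw [this, e1, o1, o2, e4, e5]
        nlinarith
    _ = ENNReal.ofReal (Real.exp (-((cst q - ε) * K ^ ((3:ℝ)/2)))) := rfl

theorem pf_UTS (h_UTMS : D_UTMS) : D_UTS := by
  intro q hq0 hq1 ε hε
  obtain ⟨K₀, h1, H⟩ := UTS_gen h_UTMS q hq0 hq1 ε hε 1 one_pos
  refine ⟨K₀, h1, fun K hK => ?_⟩
  obtain ⟨N₀, H⟩ := H K hK
  exact ⟨N₀, fun u v huv hlt hN hd => H u v huv hlt hN (by rwa [one_mul])⟩

end Pool.Agent.H84.GL
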