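import Pool.Agent.H84.GL.Targets3

/-! # Part A: BASE from the sharp lower bound -/

open MeasureTheory ProbabilityTheory
open scoped ENNReal

namespace Pool.Agent.H84.GL

open Pool.Agent.H99.NS

theorem pf_BAS (h_LTS : D_LTS) : D_BASE := by
  intro q hq0 hq1
  obtain ⟨K₀, hK, H⟩ := h_LTS q hq0 hq1 1 one_pos
  obtain ⟨n₀, H⟩ := H K₀ le_rfl
  exact ⟨K₀, Real.exp (-((cst q + 1) * K₀ ^ ((3:ℝ)/2))), by linarith, Real.exp_pos _, n₀, H⟩

end Pool.Agent.H84.GL
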