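import Pool.Agent.H84.GL.UTS

/-! # Part A: the sharp lower bound of the upper tail -/

open MeasureTheory ProbabilityTheory
open scoped ENNReal

namespace Pool.Agent.H84.GL

open Pool.Agent.H99.NS Pool.Agent.H22.LPP

/-- Choice of the relative width of the window. -/
theorem exists_window {c ε : ℝ} (hc : 0 < c) (hε : 0 < ε) : ∃ δ : ℝ, 0 < δ ∧ δ ≤ 1 / 4 ∧
    2 * c + 3 * c * δ + c * δ ^ 2 / 36 + δ ≤
      (2 * c + ε * (3 * c) ^ ((3:ℝ)/2)) * (1 - δ) ^ ((3:ℝ)/2) := by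
  have hcont : ContinuousAt (fun δ : ℝ => (2 * c + ε * (3 * c) ^ ((3:ℝ)/2)) * (1 - δ) ^ ((3:ℝ)/2) -
      (2 * c + 3 * c * δ + c * δ ^ 2 / 36 + δ)) 0 := by
    have h1 : ContinuousAt (fun δ : ℝ => (1 - δ) ^ ((3:ℝ)/2)) 0 := by
      refine ContinuousAt.rpow_const (by fun_prop) (Or.inl (by norm_num))
    exact (continuousAt_const.mul h1).sub (by fun_prop)
  have hpos : 0 < (fun δ : ℝ => (2 * c + ε * (3 * c) ^ ((3:ℝ)/2)) * (1 - δ) ^ ((3:ℝ)/2) -
      (2 * c + 3 * c * δ + c * δ ^ 2 / 36 + δ)) 0 := by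
    simp only [sub_zero, Real.one_rpow, mul_one, mul_zero]
    have : 0 < ε * (3 * c) ^ ((3:ℝ)/2) := by positivity
    norm_num
    exact this
  have hev := hcont.eventually (lt_mem_nhds hpos)
  rw [Metric.eventually_nhds_iff] at hev
  obtain ⟨r, hr, H⟩ := hev
  refine ⟨min (r / 2) (1 / 4), by positivity, min_le_right _ _, ?_⟩
  have h := H (y := min (r / 2) (1 / 4)) (by
    rw [Real.dist_eq, sub_zero, abs_of_pos (by positivity)]
    exact lt_of_le_of_lt (min_le_left _ _) (by linarith))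
  linarith

theorem alg_up {c δ e₁ : ℝ} (hc : 0 < c) (hδ : 0 < δ) (hδ4 : δ ≤ 1 / 4) (he1 : e₁ = c * δ ^ 2 / 36) :
    -(δ / 2) * (3 * c * (1 + δ)) + (c + e₁) * (1 + δ / 2) ^ 3 ≤ (c - e₁) - c * δ ^ 2 / 4 := by
  have he0 : 0 < e₁ := by rw [he1]; positivity
  have hz : (1 + δ / 2) ^ 3 ≤ 8 := by
    have : (1 + δ / 2) ^ 3 ≤ 2 ^ 3 := pow_le_pow_left₀ (by linarith) (by linarith) 3
    linarith
  have hv : e₁ * (1 + δ / 2) ^ 3 ≤ 8 * e₁ := by nlinarith
  have h5 : -(δ / 2) * (3 * c * (1 + δ)) + c * (1 + δ / 2) ^ 3 =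
      c - c * δ ^ 2 / 2 - c * δ ^ 2 * (1 / 4 - δ / 8) := by ring
  have h6 : 0 ≤ c * δ ^ 2 * (1 / 4 - δ / 8) := by
    apply mul_nonneg (by positivity); linarith
  have h7 : c * δ ^ 2 / 2 - 9 * e₁ = c * δ ^ 2 / 4 := by rw [he1]; ring
  nlinarith

theorem alg_down {c δ e₁ : ℝ} (hc : 0 < c) (hδ : 0 < δ) (hδ4 : δ ≤ 1 / 4)
    (he1 : e₁ = c * δ ^ 2 / 36) :
    (δ / 2) * (3 * c * (1 - δ)) + (c + e₁) * (1 - δ / 2) ^ 3 ≤ (c - e₁) - c * δ ^ 2 / 4 := by
  have he0 : 0 < e₁ := by rw [he1]; positivity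
  have hz : (1 - δ / 2) ^ 3 ≤ 1 := pow_le_one₀ (by linarith) (by linarith)
  have hv : e₁ * (1 - δ / 2) ^ 3 ≤ 8 * e₁ := by nlinarith
  have h5 : (δ / 2) * (3 * c * (1 - δ)) + c * (1 - δ / 2) ^ 3 =
      c - c * δ ^ 2 / 2 - c * δ ^ 2 * (1 / 4 + δ / 8) := by ring
  have h6 : 0 ≤ c * δ ^ 2 * (1 / 4 + δ / 8) := by positivity
  have h7 : c * δ ^ 2 / 2 - 9 * e₁ = c * δ ^ 2 / 4 := by rw [he1]; ring
  nlinarith

theorem low_le_cube {L : ℝ} (h : 1 ≤ L) : L ≤ L ^ 3 := by
  nlinarith [mul_pos (by linarith : 0 < L) (by linarith : 0 < L), sq_nonneg (L - 1)]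

theorem pf_LTS (h_LMG : D_LMG) (h_UTMS : D_UTMS) : D_LTS := by
  intro q hq0 hq1 ε hε
  have hc := cf_pos hq0 hq1
  set c := cf q with hc0
  obtain ⟨δ, hδ, hδ4, hwin⟩ := exists_window hc hε
  set e₁ := c * δ ^ 2 / 36 with he1
  have he1pos : 0 < e₁ := by positivity
  obtain ⟨C, δ₁, hC, hδ₁, HU⟩ := h_UTMS q e₁ hq0 hq1 he1pos
  obtain ⟨L₀, hL₀, HL⟩ := h_LMG q hq0 hq1 e₁ he1pos
  have h3 : 0 < 3 * c := by linarith
  have h1δ : 0 < 1 - δ := by linarith
  -- lower bound for L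
  set Lm := max L₀ (max 1 (max ((1 + Real.log 4) / (c * δ ^ 2 / 4)) (Real.log 2 / δ))) with hLm
  refine ⟨max 1 (3 * c * (1 - δ) * Lm ^ 2), le_max_left _ _, fun K hK => ?_⟩
  have hK1 : 1 ≤ K := le_trans (le_max_left _ _) hK
  have hK0 : 0 < K := by linarith
  have hc1 : 0 < 3 * c * (1 - δ) := by positivity
  set L := √(K / (3 * c * (1 - δ))) with hLdef
  have hL0 : 0 < L := Real.sqrt_pos.2 (by positivity)
  have hLsq : L ^ 2 * (3 * c * (1 - δ)) = K := by
    rw [hLdef, Real.sq_sqrt (by positivity)]; field_simp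
  have hLmL : Lm ≤ L := by
    rw [hLdef]
    apply Real.le_sqrt_of_sq_le
    rw [le_div_iff₀ hc1]
    have := le_trans (le_max_right _ _) hK
    linarith
  have hLL₀ : L₀ ≤ L := le_trans (le_max_left _ _) hLmL
  have hL1 : 1 ≤ L := le_trans (le_trans (le_max_left _ _) (le_max_right _ _)) hLmL
  have hLa : (1 + Real.log 4) / (c * δ ^ 2 / 4) ≤ L :=
    le_trans (le_trans (le_trans (le_max_left _ _) (le_max_right _ _)) (le_max_right _ _)) hLmL
  have hLb : Real.log 2 / δ ≤ L :=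
    le_trans (le_trans (le_trans (le_max_right _ _) (le_max_right _ _)) (le_max_right _ _)) hLmL
  have hL3 : L ≤ L ^ 3 := low_le_cube hL1
  have hLa' : 1 + Real.log 4 ≤ c * δ ^ 2 / 4 * L ^ 3 := by
    rw [div_le_iff₀ (by positivity)] at hLa
    have : c * δ ^ 2 / 4 * L ≤ c * δ ^ 2 / 4 * L ^ 3 := by gcongr
    linarith
  have hLb' : Real.log 2 ≤ δ * L ^ 3 := by
    rw [div_le_iff₀ hδ] at hLb
    have : δ * L ≤ δ * L ^ 3 := by gcongr
    linarith
  obtain ⟨n₁, HL⟩ := HL L hLL₀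
  -- n large
  obtain ⟨n₂, hn₂⟩ : ∃ n₂ : ℕ, ∀ n : ℕ, n₂ ≤ n →
      2 * L ≤ δ₁ * ((2 * n : ℕ) : ℝ) ^ ((1:ℝ)/3) ∧ 2 * C * L ≤ ((2 * n : ℕ) : ℝ) ^ ((1:ℝ)/3) := by
    set M := max (2 * L / δ₁) (2 * C * L) with hM
    have hM0 : 0 ≤ M := le_trans (by positivity) (le_max_left _ _)
    obtain ⟨n₂, hn₂⟩ := exists_nat_ge (M ^ 3)
    refine ⟨n₂, fun n hn => ?_⟩
    have h1 : M ^ 3 ≤ ((2 * n : ℕ) : ℝ) := by
      have : (n₂ : ℝ) ≤ ((2 * n : ℕ) : ℝ) := by exact_mod_cast (by omega : n₂ ≤ 2 * n)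
      linarith
    have h2 : (M ^ 3) ^ ((1:ℝ)/3) ≤ ((2 * n : ℕ) : ℝ) ^ ((1:ℝ)/3) :=
      Real.rpow_le_rpow (by positivity) h1 (by norm_num)
    have h4 : (M ^ 3) ^ ((1:ℝ)/3) = M := by
      rw [← Real.rpow_natCast, ← Real.rpow_mul hM0]; norm_num
    rw [h4] at h2
    have a1 : 2 * L / δ₁ ≤ ((2 * n : ℕ) : ℝ) ^ ((1:ℝ)/3) := le_trans (le_max_left _ _) h2
    have a2 : 2 * C * L ≤ ((2 * n : ℕ) : ℝ) ^ ((1:ℝ)/3) := le_trans (le_max_right _ _) h2
    rw [div_le_iff₀ hδ₁] at a1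
    exact ⟨by linarith, a2⟩
  refine ⟨max (max n₁ n₂) 1, fun n hn => ?_⟩
  have hn1 : n₁ ≤ n := le_trans (le_trans (le_max_left _ _) (le_max_left _ _)) hn
  have hn2 : n₂ ≤ n := le_trans (le_trans (le_max_right _ _) (le_max_left _ _)) hn
  have hn3 : 1 ≤ n := le_trans (le_max_right _ _) hn
  obtain ⟨b1, b2⟩ := hn₂ n hn2
  set N : ℝ := ((2 * n : ℕ) : ℝ) with hN
  have hN2 : N = 2 * n := by rw [hN]; push_cast; ring
  have hNpos : 0 < N := by rw [hN]; exact_mod_cast (by omega : 0 < 2 * n)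
  set t := N ^ ((1:ℝ)/3) with ht
  have ht0 : 0 < t := Real.rpow_pos_of_pos hNpos _
  have ht3 : t ^ 3 = N := by
    rw [ht, ← Real.rpow_natCast, ← Real.rpow_mul hNpos.le]; norm_num
  have htinv : N ^ (-(1:ℝ)/3) = t⁻¹ := by
    rw [ht, ← Real.rpow_neg hNpos.le]; norm_num
  set lam := L / t with hlam
  have hlam0 : 0 < lam := by positivity
  have hlamN : N * lam ^ 3 = L ^ 3 := by rw [hlam, div_pow, ht3]; field_simp
  have hlamt : lam * t = L := by rw [hlam]; field_simp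
  -- the passage time
  set o : Site := (0, 0) with ho
  set e : Site := ((2 * n : ℕ), 0) with he
  have hre : Reach o e := by
    constructor
    · simp [ho, he]
    · simp only [ho, he]
      refine ⟨(n : ℤ), ?_⟩
      push_cast; ring
  have hlt : o.1 < e.1 := by simp only [ho, he]; exact_mod_cast (by omega : 0 < 2 * n)
  have hlen : len o e = N := by
    unfold len; simp only [ho, he]; rw [hN]; push_cast; ring
  have hdsp : dsp o e = 0 := by unfold dsp; simp [ho, he]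
  have hpar : par q o e = mu q * N := by
    unfold par; simp only [ho, he, hN]; push_cast; ring
  set μN := mu q * N with hμN
  -- upper bounds
  have up : ∀ θ : ℝ, 0 ≤ θ → θ ≤ 2 →
      ∫⁻ ω, ex (θ * lam * T ω o e) ∂(PE q) ≤ ex (θ * lam * μN + (c + e₁) * (θ * L) ^ 3 + 1) := by
    intro θ h0 h2
    have hl : θ * lam ≤ δ₁ := by
      have : θ * lam ≤ 2 * lam := mul_le_mul_of_nonneg_right h2 hlam0.le
      refine this.trans ?_
      rw [hlam, ← mul_div_assoc, div_le_iff₀ ht0]; exact b1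
    have h := HU (θ * lam) (by positivity) hl o e hre hlt (by rw [hdsp]; simp; positivity)
    refine h.trans (ex_mono ?_)
    rw [hpar, hlen]
    have hCl : C * (θ * lam) ≤ 1 := by
      have h4 : C * (θ * lam) ≤ C * (2 * lam) := by gcongr
      refine h4.trans ?_
      rw [hlam, ← mul_div_assoc, ← mul_div_assoc, div_le_iff₀ ht0, one_mul]
      linarith
    have : (c + e₁) * N * (θ * lam) ^ 3 = (c + e₁) * (θ * L) ^ 3 := by
      rw [mul_pow, mul_pow, ← hlamN]; ring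
    rw [this]; linarith
  have low : ex (lam * μN + (c - e₁) * L ^ 3) ≤ ∫⁻ ω, ex (lam * T ω o e) ∂(PE q) := by
    have h := HL n hn1 lam (by rw [htinv, hlam]; rfl)
    refine le_trans (ex_mono (le_of_eq ?_)) h
    rw [hμN, hN2]; ring
  set K1 := 3 * c * L ^ 2 with hK1def
  have hKK : K = K1 * (1 - δ) := by rw [hK1def, ← hLsq]; ring
  have hT : Measurable (fun ω : Env => T ω o e) := measurable_T o e
  -- the three sets
  set A : Set Env := {ω | μN + K1 * (1 + δ) * t ≤ T ω o e} with hA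
  set B : Set Env := {ω | T ω o e ≤ μN + K1 * (1 - δ) * t} with hB
  set G : Set Env := {ω | μN + K * t ≤ T ω o e} with hG
  have hAm : MeasurableSet A := measurableSet_le measurable_const hT
  have hBm : MeasurableSet B := measurableSet_le hT measurable_const
  have hGm : MeasurableSet G := measurableSet_le measurable_const hT
  have hexm : Measurable (fun ω : Env => ex (lam * T ω o e)) := measurable_ex.comp (hT.const_mul lam)
  have cover : ∀ ω, ex (lam * T ω o e) ≤ A.indicator (fun ω => ex (lam * T ω o e)) ω +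
      B.indicator (fun ω => ex (lam * T ω o e)) ω +
      G.indicator (fun _ => ex (lam * (μN + K1 * (1 + δ) * t))) ω := by
    intro ω
    by_cases h1 : ω ∈ A
    · rw [Set.indicator_of_mem h1]
      exact le_add_right (le_add_right le_rfl)
    · by_cases h2 : ω ∈ B
      · rw [Set.indicator_of_mem h2]
        exact le_add_right (le_add_left le_rfl)
      · have h3 : ω ∈ G := by
          simp only [hB, Set.mem_ofPred_eq, not_le] at h2
          simp only [hG, Set.mem_ofPred_eq, hKK]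
          exact h2.le
        rw [Set.indicator_of_mem h3]
        refine le_add_left (ex_mono ?_)
        simp only [hA, Set.mem_ofPred_eq, not_le] at h1
        exact mul_le_mul_of_nonneg_left h1.le hlam0.le
  have hδ2 : 0 < δ / 2 := by linarith
  have hLpos3 : 0 < L ^ 3 := by positivity
  -- the part above
  have partA : ∫⁻ ω, A.indicator (fun ω => ex (lam * T ω o e)) ω ∂(PE q) ≤
      ex (lam * μN + (c - e₁) * L ^ 3 - Real.log 4) := by
    have hpt : ∀ ω, A.indicator (fun ω => ex (lam * T ω o e)) ω ≤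
        ex (-(δ / 2 * lam * (μN + K1 * (1 + δ) * t))) * ex ((1 + δ / 2) * lam * T ω o e) := by
      intro ω
      by_cases h1 : ω ∈ A
      · rw [Set.indicator_of_mem h1, ← ex_add]
        apply ex_mono
        simp only [hA, Set.mem_ofPred_eq] at h1
        have : δ / 2 * lam * (μN + K1 * (1 + δ) * t) ≤ δ / 2 * lam * T ω o e :=
          mul_le_mul_of_nonneg_left h1 (by positivity)
        linarith
      · rw [Set.indicator_of_notMem h1]; exact zero_le
    refine (lintegral_mono hpt).trans ?_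
    rw [lintegral_const_mul' _ _ (ex_ne_top _)]
    refine (mul_le_mul_right (up (1 + δ / 2) (by linarith) (by linarith)) _).trans ?_
    rw [← ex_add]
    apply ex_mono
    have hx : lam * (K1 * (1 + δ) * t) = 3 * c * (1 + δ) * L ^ 3 := by
      rw [hK1def]
      calc lam * (3 * c * L ^ 2 * (1 + δ) * t) = (lam * t) * (3 * c * L ^ 2 * (1 + δ)) := by ring
        _ = _ := by rw [hlamt]; ring
    have hy : -(δ / 2 * lam * (μN + K1 * (1 + δ) * t)) +
        ((1 + δ / 2) * lam * μN + (c + e₁) * ((1 + δ / 2) * L) ^ 3 + 1) =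
        lam * μN - δ / 2 * (lam * (K1 * (1 + δ) * t)) + (c + e₁) * (1 + δ / 2) ^ 3 * L ^ 3 + 1 := by
      ring
    rw [hy, hx]
    have hu := mul_le_mul_of_nonneg_right (alg_up hc hδ hδ4 he1) hLpos3.le
    clear_value lam μN t
    linarith
  -- the part below
  have partB : ∫⁻ ω, B.indicator (fun ω => ex (lam * T ω o e)) ω ∂(PE q) ≤
      ex (lam * μN + (c - e₁) * L ^ 3 - Real.log 4) := by
    have hpt : ∀ ω, B.indicator (fun ω => ex (lam * T ω o e)) ω ≤
        ex (δ / 2 * lam * (μN + K1 * (1 - δ) * t)) * ex ((1 - δ / 2) * lam * T ω o e) := by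
      intro ω
      by_cases h1 : ω ∈ B
      · rw [Set.indicator_of_mem h1, ← ex_add]
        apply ex_mono
        simp only [hB, Set.mem_ofPred_eq] at h1
        have : δ / 2 * lam * T ω o e ≤ δ / 2 * lam * (μN + K1 * (1 - δ) * t) :=
          mul_le_mul_of_nonneg_left h1 (by positivity)
        linarith
      · rw [Set.indicator_of_notMem h1]; exact zero_le
    refine (lintegral_mono hpt).trans ?_
    rw [lintegral_const_mul' _ _ (ex_ne_top _)]
    refine (mul_le_mul_right (up (1 - δ / 2) (by linarith) (by linarith)) _).trans ?_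
    rw [← ex_add]
    apply ex_mono
    have hx : lam * (K1 * (1 - δ) * t) = 3 * c * (1 - δ) * L ^ 3 := by
      rw [hK1def]
      calc lam * (3 * c * L ^ 2 * (1 - δ) * t) = (lam * t) * (3 * c * L ^ 2 * (1 - δ)) := by ring
        _ = _ := by rw [hlamt]; ring
    have hy : δ / 2 * lam * (μN + K1 * (1 - δ) * t) +
        ((1 - δ / 2) * lam * μN + (c + e₁) * ((1 - δ / 2) * L) ^ 3 + 1) =
        lam * μN + δ / 2 * (lam * (K1 * (1 - δ) * t)) + (c + e₁) * (1 - δ / 2) ^ 3 * L ^ 3 + 1 := by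
      ring
    rw [hy, hx]
    have hu := mul_le_mul_of_nonneg_right (alg_down hc hδ hδ4 he1) hLpos3.le
    clear_value lam μN t
    linarith
  -- the remaining part
  have partG : ∫⁻ ω, G.indicator (fun _ => ex (lam * (μN + K1 * (1 + δ) * t))) ω ∂(PE q) =
      ex (lam * (μN + K1 * (1 + δ) * t)) * PE q G := by
    rw [lintegral_indicator_const hGm]
  have total : ex (lam * μN + (c - e₁) * L ^ 3) ≤
      ex (lam * μN + (c - e₁) * L ^ 3 - Real.log 4) +
      ex (lam * μN + (c - e₁) * L ^ 3 - Real.log 4) +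
      ex (lam * (μN + K1 * (1 + δ) * t)) * PE q G := by
    refine low.trans ((lintegral_mono cover).trans ?_)
    rw [lintegral_add_right _ (measurable_const.indicator hGm),
      lintegral_add_right _ (hexm.indicator hBm), partG]
    gcongr
  -- conclusion in the reals
  have hfin : PE q G ≠ ∞ := measure_ne_top _ _
  set P := (PE q G).toReal with hP
  have hPG : PE q G = ENNReal.ofReal P := (ENNReal.ofReal_toReal hfin).symm
  have hP0 : 0 ≤ P := ENNReal.toReal_nonneg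
  set E0 := Real.exp (lam * μN + (c - e₁) * L ^ 3) with hE0
  have hE0pos : 0 < E0 := Real.exp_pos _
  have hq4 : Real.exp (lam * μN + (c - e₁) * L ^ 3 - Real.log 4) = E0 / 4 := by
    rw [Real.exp_sub, Real.exp_log (by norm_num)]
  have real_total : E0 ≤ E0 / 4 + E0 / 4 + Real.exp (lam * (μN + K1 * (1 + δ) * t)) * P := by
    have h := total
    rw [hPG] at h
    unfold ex at h
    rw [hq4, ← ENNReal.ofReal_mul (Real.exp_pos _).le,
      ← ENNReal.ofReal_add (by positivity) (by positivity),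
      ← ENNReal.ofReal_add (by positivity) (by positivity),
      ENNReal.ofReal_le_ofReal_iff (by positivity)] at h
    exact h
  have hx : lam * (K1 * (1 + δ) * t) = 3 * c * (1 + δ) * L ^ 3 := by
    rw [hK1def]
    calc lam * (3 * c * L ^ 2 * (1 + δ) * t) = (lam * t) * (3 * c * L ^ 2 * (1 + δ)) := by ring
      _ = _ := by rw [hlamt]; ring
  have hPlow : Real.exp ((c - e₁) * L ^ 3 - 3 * c * (1 + δ) * L ^ 3 - Real.log 2) ≤ P := by
    have h1 : E0 / 2 ≤ Real.exp (lam * (μN + K1 * (1 + δ) * t)) * P := by linarith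
    have h2 : Real.exp (lam * (μN + K1 * (1 + δ) * t)) =
        Real.exp (lam * μN) * Real.exp (3 * c * (1 + δ) * L ^ 3) := by
      rw [mul_add, hx, Real.exp_add]
    have h4 : E0 / 2 = Real.exp (lam * μN) * Real.exp (3 * c * (1 + δ) * L ^ 3) *
        Real.exp ((c - e₁) * L ^ 3 - 3 * c * (1 + δ) * L ^ 3 - Real.log 2) := by
      rw [hE0, Real.exp_sub, Real.exp_sub, Real.exp_log (by norm_num : (0:ℝ) < 2), Real.exp_add]
      have := Real.exp_pos (3 * c * (1 + δ) * L ^ 3)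
      field_simp
    rw [h4, h2] at h1
    exact le_of_mul_le_mul_left h1 (by positivity)
  have hfinal : Real.exp (-((cst q + ε) * K ^ ((3:ℝ)/2))) ≤ P := by
    refine le_trans (Real.exp_le_exp.2 ?_) hPlow
    -- the power of K
    have hKp : K ^ ((3:ℝ)/2) = (3 * c) ^ ((3:ℝ)/2) * (1 - δ) ^ ((3:ℝ)/2) * L ^ 3 := by
      rw [← hLsq, show L ^ 2 * (3 * c * (1 - δ)) = (3 * c) * (1 - δ) * L ^ 2 by ring,
        Real.mul_rpow (by positivity) (by positivity), Real.mul_rpow h3.le h1δ.le]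
      congr 1
      rw [← Real.rpow_natCast, ← Real.rpow_mul hL0.le, ← Real.rpow_natCast]
      norm_num
    have hcst : cst q * (3 * c) ^ ((3:ℝ)/2) = 2 * c := by
      have h5 : cst q = 2 / 3 * (3 * c) ^ (-(1:ℝ)/2) := rfl
      rw [h5, mul_assoc, ← Real.rpow_add h3]
      norm_num
      ring
    have h6 : (cst q + ε) * K ^ ((3:ℝ)/2) =
        (2 * c + ε * (3 * c) ^ ((3:ℝ)/2)) * (1 - δ) ^ ((3:ℝ)/2) * L ^ 3 := by
      rw [hKp]
      calc (cst q + ε) * ((3 * c) ^ ((3:ℝ)/2) * (1 - δ) ^ ((3:ℝ)/2) * L ^ 3)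
          = (cst q * (3 * c) ^ ((3:ℝ)/2) + ε * (3 * c) ^ ((3:ℝ)/2)) * (1 - δ) ^ ((3:ℝ)/2) * L ^ 3 := by
            ring
        _ = _ := by rw [hcst]
    rw [h6]
    have h7 := mul_le_mul_of_nonneg_right hwin hLpos3.le
    have h8 : (c - e₁) * L ^ 3 - 3 * c * (1 + δ) * L ^ 3 = -(2 * c + 3 * c * δ + c * δ ^ 2 / 36) * L ^ 3 := by
      rw [he1]; ring
    rw [h8]
    linarith
  have : ENNReal.ofReal (Real.exp (-((cst q + ε) * K ^ ((3:ℝ)/2)))) ≤ PE q G := by
    rw [hPG]; exact ENNReal.ofReal_le_ofReal hfinal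
  refine this.trans (le_of_eq ?_)
  congr 1
  ext ω
  simp only [hG, Set.mem_ofPred_eq, hμN, hN2]

end Pool.Agent.H84.GL
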