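import Pool.Agent.H84.GL.Targets3
import Pool.Agent.H22.LPP.Prob

/-! # Part A: sharp exponential moments of the passage times near the vertical direction -/

open MeasureTheory ProbabilityTheory
open scoped ENNReal

namespace Pool.Agent.H84.GL

open Pool.Agent.H99.NS Pool.Agent.H22.LPP

theorem pf_UTMS (h_UMS : T_UMS) (h_TLB : T_TLB) : D_UTMS := by
  intro q ε hq0 hq1 hε
  obtain ⟨C, δ, hC, hδ, H⟩ := h_UMS q ε hq0 hq1 hε
  refine ⟨C, δ, hC, hδ, fun lam h0 h1 u v huv hlt hd => ?_⟩
  obtain ⟨a, b, hv, ha, hb⟩ := exists_qs huv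
  have hab : 1 ≤ a + b := by omega
  have hlen : len u v = (a : ℝ) + b := by
    unfold len; rw [ha]; push_cast; ring
  have hdsp : dsp u v = (a : ℝ) - b := by
    unfold dsp; rw [hb]; push_cast; ring
  have hpar : par q u v = pq q a b := by
    unfold par pq
    rw [ha, hb]; push_cast; ring
  rw [hlen, hdsp] at hd
  have key := H lam h0 h1 a b hab hd
  have hT : ∀ ω : Env, ex (lam * T ω u v) ≤ ex (lam * LB (arr ω u) a b) := by
    intro ω
    apply ex_mono
    apply mul_le_mul_of_nonneg_left _ h0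
    rw [hv, T_eq_Tq]
    exact_mod_cast (h_TLB ω u a b).1
  calc ∫⁻ ω, ex (lam * T ω u v) ∂(PE q)
      ≤ ∫⁻ ω, ex (lam * LB (arr ω u) a b) ∂(PE q) := lintegral_mono hT
    _ = ∫⁻ W, ex (lam * LB W a b) ∂(P2 q) := by
        rw [← map_arr u q, lintegral_map _ (measurable_arr u)]
        exact measurable_ex.comp (((measurable_nat (fun n : ℕ => (n : ℝ))).comp
          (measurable_LB a b)).const_mul lam)
    _ ≤ _ := by rw [hlen, hpar]; exact key

end Pool.Agent.H84.GL
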