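import Pool.Agent.H84.GL.Basic

/-!
# Targets of Part A: estimates for the passage times `T` under `PE q`
-/

open MeasureTheory ProbabilityTheory
open scoped ENNReal

namespace Pool.Agent.H84.GL

open Pool.Agent.H99.NS

/-- The length of a pair of sites, as a real number. -/
noncomputable def len (u v : Site) : ℝ := ((v.1 - u.1 : ℤ) : ℝ)

/-- The displacement in space, as a real number. -/
noncomputable def dsp (u v : Site) : ℝ := ((v.2 - u.2 : ℤ) : ℝ)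

/-- The array of weights in the quadrant based at `u`. -/
def arr (ω : Env) (u : Site) : ℕ × ℕ → ℕ := fun p => ω (qs u p.1 p.2)

theorem measurable_arr (u : Site) : Measurable (fun ω : Env => arr ω u) := by
  unfold arr; fun_prop

theorem qs_injective (u : Site) : Function.Injective (fun p : ℕ × ℕ => qs u p.1 p.2) := by
  intro p p' h
  simp only [qs, Prod.mk.injEq] at h
  exact Prod.ext (by omega) (by omega)

theorem map_arr (u : Site) (q : ℝ) : Measure.map (fun ω : Env => arr ω u) (PE q) = P2 q :=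
  Measure.map_infinitePi_infinitePi_of_inj (P := fun _ : Site => geo q) (qs_injective u)

/-! ## Interface with the basic facts about `T` -/

/-- `T` in quadrant coordinates. -/
def I_TQ : Prop := ∀ (ω : Env) (u : Site) (a b : ℕ), T ω u (qs u a b) = (Tq ω u a b : ℝ)

/-- Superadditivity. -/
def I_SUP : Prop := ∀ (ω : Env) (u v w : Site), Reach u v → Reach v w →
  T ω u v + T ω v w ≤ T ω u w

/-- `T` depends only on the weights of the sites between the end points. -/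
def I_DEP : Prop := ∀ (ω ω' : Env) (u v : Site), Reach u v →
  (∀ s : Site, Reach u s → Reach s v → s ≠ u → ω s = ω' s) → T ω u v = T ω' u v

/-- Measurability and positivity. -/
def I_MEA : Prop := (∀ u v : Site, Measurable (fun ω : Env => T ω u v)) ∧
  ∀ (ω : Env) (u v : Site), 0 ≤ T ω u v

/-- Translation. -/
def I_TRL : Prop := ∀ (ω : Env) (u v z : Site),
  T (fun s => ω (s + z)) u v = T ω (u + z) (v + z)

/-! ## General tools -/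

/-- Splicing. -/
def T_SPL : Prop := ∀ (q : ℝ) (A : Set Site), 
  Measure.map (fun x : Env × Env => (fun s => (A.indicator x.1 s + Aᶜ.indicator x.2 s : ℕ)))
    ((PE q).prod (PE q)) = PE q

/-- Independence with a random index. -/
def T_FUB : Prop := ∀ (q : ℝ) (A B : Set Site), Disjoint A B →
  ∀ (g : Env → ℝ≥0∞) (κ : Env → ℕ) (E : ℕ → Set Env) (p : ℝ≥0∞),
    Measurable g → Measurable κ → (∀ k, MeasurableSet (E k)) →
    (∀ ω ω' : Env, (∀ s ∈ A, ω s = ω' s) → g ω = g ω' ∧ κ ω = κ ω') →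
    (∀ (k : ℕ) (ω ω' : Env), (∀ s ∈ B, ω s = ω' s) → ω ∈ E k → ω' ∈ E k) →
    (∀ ω, p ≤ PE q (E (κ ω))) →
    p * ∫⁻ ω, g ω ∂(PE q) ≤ ∫⁻ ω, (E (κ ω)).indicator (fun _ => g ω) ω ∂(PE q)

/-- Paley-Zygmund inequality. -/
def T_PZ : Prop := ∀ {Ω : Type} [MeasurableSpace Ω] (μ : Measure Ω) [IsProbabilityMeasure μ]
  (f : Ω → ℝ≥0∞), Measurable f → ∀ A B : ℝ, 0 < A → 0 < B →
    ENNReal.ofReal A ≤ ∫⁻ ω, f ω ∂μ → ∫⁻ ω, (f ω) ^ 2 ∂μ ≤ ENNReal.ofReal B →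
    ENNReal.ofReal (A ^ 2 / (4 * B)) ≤ μ {ω | ENNReal.ofReal (A / 2) ≤ f ω}

/-- `T` with the starting point excluded against `LB`. -/
def T_TLB : Prop := ∀ (ω : Env) (u : Site) (a b : ℕ),
  Tq ω u a b ≤ LB (arr ω u) a b ∧ LB (arr ω u) a b ≤ Tq ω u a b + ω u

/-- A passage time restricted to rows `≥ 0` plus the prefix (deterministic). -/
def T_PRE : Prop := ∀ (ω : Env) (o u : Site) (k a b : ℕ), k ≤ a →
  Reach u (o.1 + k - 1, o.2 + k + 1) →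
  T ω u (o.1 + k - 1, o.2 + k + 1) + (LB (hs k (arr ω o)) (a - k) b : ℝ) ≤ T ω u (qs o a b)

/-! ## Deliverables -/

/-- (UTM) Exponential moments, all directions. -/
def D_UTM : Prop := ∀ q : ℝ, 0 < q → q < 1 → ∃ C l₀ : ℝ, 0 < C ∧ 0 < l₀ ∧
  ∀ lam : ℝ, 0 ≤ lam → lam ≤ l₀ → ∀ u v : Site, Reach u v → u.1 < v.1 →
    ∫⁻ ω, ex (lam * T ω u v) ∂(PE q) ≤ ex (lam * par q u v + C * (len u v * lam ^ 3 + lam))

/-- (UT) Upper tail, all directions. -/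
def D_UT : Prop := ∀ q : ℝ, 0 < q → q < 1 → ∃ C c : ℝ, 0 < C ∧ 0 < c ∧
  ∀ u v : Site, Reach u v → u.1 < v.1 → ∀ x : ℝ, 0 ≤ x →
    PE q {ω | par q u v + x * (len u v) ^ ((1:ℝ)/3) ≤ T ω u v} ≤
      ENNReal.ofReal (C * Real.exp (-(c * min (x ^ ((3:ℝ)/2)) (x * (len u v) ^ ((1:ℝ)/3)))))

/-- (LT) Lower tail near the vertical direction. -/
def D_LT : Prop := ∀ q : ℝ, 0 < q → q < 1 → ∃ A c : ℝ, 0 < A ∧ 0 < c ∧
  ∀ u v : Site, Reach u v → u.1 < v.1 → |dsp u v| ≤ (len u v) ^ ((3:ℝ)/4) → ∀ x : ℝ, 0 ≤ x →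
    PE q {ω | T ω u v ≤ par q u v - x * (len u v) ^ ((1:ℝ)/3)} ≤
      ENNReal.ofReal (A * Real.exp (-(c * x ^ ((3:ℝ)/2))))

/-- (BASE) Lower bound of the upper tail, first form. -/
def D_BASE : Prop := ∀ q : ℝ, 0 < q → q < 1 → ∃ c p : ℝ, 0 < c ∧ 0 < p ∧ ∃ n₀ : ℕ,
  ∀ n : ℕ, n₀ ≤ n → ENNReal.ofReal p ≤
    PE q {ω | mu q * (2 * n) + c * ((2 * n : ℕ) : ℝ) ^ ((1:ℝ)/3) ≤ T ω (0, 0) ((2 * n : ℕ), 0)}

/-- (HW) Lower bound of the upper tail. -/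
def D_HW : Prop := ∀ q : ℝ, 0 < q → q < 1 → ∃ C : ℝ, 1 ≤ C ∧ ∀ K : ℝ, 1 ≤ K → ∃ N₀ : ℕ,
  ∀ n : ℕ, N₀ ≤ n → ENNReal.ofReal (Real.exp (-(C * K ^ ((3:ℝ)/2)))) ≤
    PE q {ω | mu q * (2 * n) + K * ((2 * n : ℕ) : ℝ) ^ ((1:ℝ)/3) ≤ T ω (0, 0) ((2 * n : ℕ), 0)}

/-- Expectation bounds: `T` is square integrable, `E T ≤ par + C` in all directions, and
`|E T - mu N| ≤ C N^(1/3)` in the vertical direction. -/
def D_EXP : Prop := ∀ q : ℝ, 0 < q → q < 1 → ∃ C : ℝ, 0 < C ∧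
  (∀ u v : Site, Reach u v → u.1 < v.1 →
    MemLp (fun ω => T ω u v) 2 (PE q) ∧ ∫ ω, T ω u v ∂(PE q) ≤ par q u v + C) ∧
  (∀ n : ℕ, 1 ≤ n → |∫ ω, T ω (0, 0) ((2 * n : ℕ), 0) ∂(PE q) - mu q * (2 * n)| ≤
      C * ((2 * n : ℕ) : ℝ) ^ ((1:ℝ)/3))

/-- (VAR), (VARU) Variance bounds in the vertical direction. -/
def D_VAR : Prop := ∀ q : ℝ, 0 < q → q < 1 → ∃ c C : ℝ, 0 < c ∧ 0 < C ∧ ∃ n₀ : ℕ,
  ∀ n : ℕ, n₀ ≤ n →
    c * ((2 * n : ℕ) : ℝ) ^ ((2:ℝ)/3) ≤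
      variance (fun ω => T ω (0, 0) ((2 * n : ℕ), 0)) (PE q) ∧
    variance (fun ω => T ω (0, 0) ((2 * n : ℕ), 0)) (PE q) ≤
      C * ((2 * n : ℕ) : ℝ) ^ ((2:ℝ)/3)

/-! ## Steps of the proof of BASE -/

/-- Bound for the windowed exponential maxima of the bulk passage times. -/
def T_ELU : Prop := ∀ q : ℝ, 0 < q → q < 1 → ∃ c C l₀ : ℝ, 0 < c ∧ 0 < C ∧ 0 < l₀ ∧
  ∀ lam : ℝ, 0 < lam → lam ≤ l₀ → ∀ a w j : ℕ, 1 ≤ w → (w : ℝ) ≤ ((a : ℝ) + 1) ^ ((3:ℝ)/4) →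
    j * w ≤ a →
    EL q lam w j a a ≤ ex (2 * ((a : ℝ) + 1) * mu q * lam - c * lam * ((j : ℝ) * w) ^ 2 / (a + 1)
      + C * lam * ((w : ℝ) ^ 2 / (a + 1) + ((a : ℝ) + 1) ^ ((1:ℝ)/3)) + C * (a + 1) * lam ^ 3 + C)

/-- One window carries an atypically large passage time. -/
def T_BJS : Prop := ∀ q : ℝ, 0 < q → q < 1 → ∃ c C L₀ : ℝ, 0 < c ∧ 0 < C ∧ 1 ≤ L₀ ∧
  ∀ L : ℝ, L₀ ≤ L → ∃ p : ℝ, 0 < p ∧ ∃ a₀ : ℕ, ∀ a : ℕ, a₀ ≤ a →
    ENNReal.ofReal p ≤ P2 q {W | ∃ k ≤ a, (k : ℝ) ≤ C * L * ((a : ℝ) + 1) ^ ((2:ℝ)/3) ∧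
      2 * ((a : ℝ) + 1) * mu q + c * L ^ 2 * ((a : ℝ) + 1) ^ ((1:ℝ)/3) ≤
        (LB (hs k W) (a - k) a : ℝ) + mu q * (k + 1)}

end Pool.Agent.H84.GL
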