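import Pool.Agent.H84.GL.Targets

/-!
# Basic facts for Part A: measurability, monotonicity, invariance of the laws
-/

open MeasureTheory ProbabilityTheory
open scoped ENNReal

namespace Pool.Agent.H84.GL

open Pool.Agent.H99.NS

/-! ## `ex` -/

theorem ex_add (x y : ℝ) : ex (x + y) = ex x * ex y := by
  unfold ex
  rw [Real.exp_add, ENNReal.ofReal_mul (Real.exp_pos x).le]

theorem ex_zero : ex 0 = 1 := by simp [ex]

theorem ex_pos (x : ℝ) : 0 < ex x := by simp [ex, Real.exp_pos]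

theorem ex_ne_zero (x : ℝ) : ex x ≠ 0 := (ex_pos x).ne'

theorem ex_ne_top (x : ℝ) : ex x ≠ ∞ := ENNReal.ofReal_ne_top

theorem ex_le_ex {x y : ℝ} : ex x ≤ ex y ↔ x ≤ y := by
  unfold ex
  rw [ENNReal.ofReal_le_ofReal_iff (Real.exp_pos y).le, Real.exp_le_exp]

theorem ex_mono : Monotone ex := fun _ _ h => ex_le_ex.2 h

theorem ex_neg_mul (x : ℝ) : ex (-x) * ex x = 1 := by
  rw [← ex_add]; simp [ex_zero]

theorem measurable_ex : Measurable ex := ENNReal.measurable_ofReal.comp Real.measurable_exp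

theorem toReal_ex (x : ℝ) : (ex x).toReal = Real.exp x :=
  ENNReal.toReal_ofReal (Real.exp_pos x).le

/-- Chernoff bound, upper tail. -/
theorem chernoff {Ω : Type*} [MeasurableSpace Ω] (μ : Measure Ω) (f : Ω → ℝ)
    (hf : Measurable f) (lam y : ℝ) (hl : 0 ≤ lam) :
    μ {ω | y ≤ f ω} ≤ ex (-(lam * y)) * ∫⁻ ω, ex (lam * f ω) ∂μ := by
  have hm : Measurable (fun ω => ex (lam * f ω)) := measurable_ex.comp (hf.const_mul lam)
  have h1 : μ {ω | y ≤ f ω} ≤ μ {ω | ex (lam * y) ≤ ex (lam * f ω)} := by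
    apply measure_mono
    intro ω h
    exact ex_mono (mul_le_mul_of_nonneg_left h hl)
  have h2 := mul_meas_ge_le_lintegral (μ := μ) hm (ex (lam * y))
  calc μ {ω | y ≤ f ω} ≤ μ {ω | ex (lam * y) ≤ ex (lam * f ω)} := h1
    _ = ex (-(lam * y)) * (ex (lam * y) * μ {ω | ex (lam * y) ≤ ex (lam * f ω)}) := by
        rw [← mul_assoc, ex_neg_mul, one_mul]
    _ ≤ ex (-(lam * y)) * ∫⁻ ω, ex (lam * f ω) ∂μ := by gcongr

/-- Chernoff bound, lower tail. -/
theorem chernoff_low {Ω : Type*} [MeasurableSpace Ω] (μ : Measure Ω) (f : Ω → ℝ)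
    (hf : Measurable f) (lam y : ℝ) (hl : 0 ≤ lam) :
    μ {ω | f ω ≤ y} ≤ ex (lam * y) * ∫⁻ ω, ex (-(lam * f ω)) ∂μ := by
  have h := chernoff μ (fun ω => - f ω) hf.neg lam (-y) hl
  simpa [neg_le_neg_iff] using h

/-! ## Measurability -/

theorem measurable_GB (a b : ℕ) :
    Measurable (fun x : (ℕ → ℕ) × (ℕ → ℕ) × (ℕ × ℕ → ℕ) => GB x.1 x.2.1 x.2.2 a b) := by
  induction a generalizing b with
  | zero =>
    induction b with
    | zero => simp only [GB]; exact measurable_const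
    | succ j ih => simp only [GB]; fun_prop
  | succ i ihi =>
    induction b with
    | zero =>
      simp only [GB]
      have := ihi 0
      fun_prop
    | succ j ihj =>
      simp only [GB]
      have := ihi (j+1)
      exact (this.max ihj).add (by fun_prop)

theorem measurable_Gq (a b : ℕ) : Measurable (fun W : ℕ × ℕ → ℕ => LB W a b) := by
  unfold LB
  induction a generalizing b with
  | zero =>
    induction b with
    | zero => simp only [Gq]; fun_prop
    | succ j ih => simp only [Gq]; fun_prop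
  | succ i ihi =>
    induction b with
    | zero =>
      simp only [Gq]
      have := ihi 0
      fun_prop
    | succ j ihj =>
      simp only [Gq]
      have := ihi (j+1)
      exact (this.max ihj).add (by fun_prop)

theorem measurable_LB (a b : ℕ) : Measurable (fun W : ℕ × ℕ → ℕ => LB W a b) :=
  measurable_Gq a b

theorem measurable_hs (k : ℕ) : Measurable (hs k) := by
  unfold hs; fun_prop

theorem measurable_tr : Measurable tr := by
  unfold tr; fun_prop

theorem measurable_rfl2 (a b : ℕ) : Measurable (rfl2 a b) := by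
  refine measurable_pi_lambda _ fun p => ?_
  unfold rfl2
  by_cases h : p.1 ≤ a ∧ p.2 ≤ b
  · simp only [h, and_self, if_true]; fun_prop
  · simp only [h, if_false]; fun_prop

theorem measurable_sup_nat {Ω ι : Type*} [MeasurableSpace Ω] (s : Finset ι) (f : ι → Ω → ℕ)
    (h : ∀ k ∈ s, Measurable (f k)) : Measurable (fun ω => s.sup (fun k => f k ω)) := by
  classical
  induction s using Finset.induction_on with
  | empty => simp
  | insert i s _ ih =>
    simp only [Finset.sup_insert]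
    exact (h i (Finset.mem_insert_self i s)).max
      (ih fun k hk => h k (Finset.mem_insert_of_mem hk))

theorem measurable_Gh (k0 a b : ℕ) :
    Measurable (fun x : (ℕ → ℕ) × (ℕ × ℕ → ℕ) => Gh x.1 x.2 k0 a b) := by
  unfold Gh
  refine measurable_sup_nat _ (fun k (x : (ℕ → ℕ) × (ℕ × ℕ → ℕ)) =>
    ∑ i ∈ Finset.range (k+1), x.1 i + LB (hs k x.2) (a - k) b) fun k _ => ?_
  have h1 : Measurable (fun x : (ℕ → ℕ) × (ℕ × ℕ → ℕ) => LB (hs k x.2) (a - k) b) :=
    (measurable_LB (a - k) b).comp ((measurable_hs k).comp measurable_snd)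
  have h2 : Measurable (fun x : (ℕ → ℕ) × (ℕ × ℕ → ℕ) => ∑ i ∈ Finset.range (k+1), x.1 i) := by
    fun_prop
  exact h2.add h1

theorem measurable_Gv (k0 a b : ℕ) :
    Measurable (fun x : (ℕ → ℕ) × (ℕ × ℕ → ℕ) => Gv x.1 x.2 k0 a b) := by
  unfold Gv
  exact (measurable_Gh k0 b a).comp (measurable_fst.prodMk (measurable_tr.comp measurable_snd))

theorem measurable_hst (j : ℕ) :
    Measurable (fun x : ℕ × (ℕ → ℕ) × (ℕ → ℕ) => hst x.1 x.2.1 x.2.2 j) := by
  induction j with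
  | zero => simp only [hst]; fun_prop
  | succ j ih => 
    simp only [hst]
    exact (by fun_prop : Measurable fun x : ℕ × (ℕ → ℕ) × (ℕ → ℕ) => x.2.2 j).add
      (ih.sub (by fun_prop))

theorem measurable_vst :
    Measurable (fun x : ℕ × (ℕ → ℕ) × (ℕ → ℕ) => vst x.1 x.2.1 x.2.2) := by
  refine measurable_pi_lambda _ fun j => ?_
  unfold vst
  exact (by fun_prop : Measurable fun x : ℕ × (ℕ → ℕ) × (ℕ → ℕ) => x.2.2 j).add
    ((by fun_prop : Measurable fun x : ℕ × (ℕ → ℕ) × (ℕ → ℕ) => x.2.1 j).sub (measurable_hst j))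

/-! ## Order -/

theorem LB_le_Gh (I : ℕ → ℕ) (W : ℕ × ℕ → ℕ) (a b : ℕ) : LB W a b ≤ Gh I W 0 a b := by
  unfold Gh
  have h := Finset.le_sup (s := Finset.Icc 0 a)
    (f := fun k => ∑ i ∈ Finset.range (k+1), I i + LB (hs k W) (a - k) b)
    (Finset.mem_Icc.2 ⟨le_refl 0, Nat.zero_le a⟩)
  refine le_trans ?_ h
  simp only [Nat.sub_zero]
  have : hs 0 W = W := by funext p; simp [hs]
  rw [this]; omega

theorem Gh_mono (W : ℕ × ℕ → ℕ) (k0 a b : ℕ) : Monotone (fun I : ℕ → ℕ => Gh I W k0 a b) := by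
  intro I I' h
  unfold Gh
  refine Finset.sup_mono_fun fun k _ => ?_
  exact Nat.add_le_add_right (Finset.sum_le_sum fun i _ => h i) _

theorem Gh_congr (I I' : ℕ → ℕ) (W : ℕ × ℕ → ℕ) (k0 a b : ℕ)
    (h : ∀ i < a + 1, I i = I' i) : Gh I W k0 a b = Gh I' W k0 a b := by
  unfold Gh
  refine Finset.sup_congr rfl fun k hk => ?_
  have hk' := (Finset.mem_Icc.1 hk).2
  congr 1
  exact Finset.sum_congr rfl fun i hi => h i (by have := Finset.mem_range.1 hi; omega)

/-- Antitonicity in the first exit index. -/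
theorem Gh_anti (I : ℕ → ℕ) (W : ℕ × ℕ → ℕ) {k0 k1 : ℕ} (a b : ℕ) (h : k0 ≤ k1) :
    Gh I W k1 a b ≤ Gh I W k0 a b := by
  unfold Gh
  exact Finset.sup_mono (Finset.Icc_subset_Icc_left h)

/-- The exit value is attained. -/
theorem Gh_attained (I : ℕ → ℕ) (W : ℕ × ℕ → ℕ) (k0 a b : ℕ) (h : k0 ≤ a) :
    ∃ k, k0 ≤ k ∧ k ≤ a ∧
      Gh I W k0 a b = ∑ i ∈ Finset.range (k+1), I i + LB (hs k W) (a - k) b := by
  unfold Gh
  obtain ⟨k, hk, e⟩ := Finset.exists_mem_eq_sup (Finset.Icc k0 a) (Finset.nonempty_Icc.2 h)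
    (fun k => ∑ i ∈ Finset.range (k+1), I i + LB (hs k W) (a - k) b)
  exact ⟨k, (Finset.mem_Icc.1 hk).1, (Finset.mem_Icc.1 hk).2, e⟩

/-! ## Invariance of the laws -/

theorem map_hs (k : ℕ) (q : ℝ) : Measure.map (hs k) (P2 q) = P2 q := by
  have hf : Function.Injective (fun p : ℕ × ℕ => (p.1 + k, p.2)) := by
    intro p p' h
    simp only [Prod.mk.injEq, add_left_inj] at h
    exact Prod.ext h.1 h.2
  exact Measure.map_infinitePi_infinitePi_of_inj (P := fun _ : ℕ × ℕ => geo q) hf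

theorem map_tr (q : ℝ) : Measure.map tr (P2 q) = P2 q := by
  have hf : Function.Injective (fun p : ℕ × ℕ => (p.2, p.1)) := by
    intro p p' h
    simp only [Prod.mk.injEq] at h
    exact Prod.ext h.2 h.1
  exact Measure.map_infinitePi_infinitePi_of_inj (P := fun _ : ℕ × ℕ => geo q) hf

theorem map_rfl2 (a b : ℕ) (q : ℝ) : Measure.map (rfl2 a b) (P2 q) = P2 q := by
  have hf : Function.Injective
      (fun p : ℕ × ℕ => if p.1 ≤ a ∧ p.2 ≤ b then (a - p.1, b - p.2) else p) := by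
    intro p p' h
    simp only at h
    split_ifs at h with h1 h2 h2
    · simp only [Prod.mk.injEq] at h
      exact Prod.ext (by omega) (by omega)
    · exfalso; apply h2; rw [← h]; exact ⟨Nat.sub_le _ _, Nat.sub_le _ _⟩
    · exfalso; apply h1; rw [h]; exact ⟨Nat.sub_le _ _, Nat.sub_le _ _⟩
    · exact h
  have h := Measure.map_infinitePi_infinitePi_of_inj (P := fun _ : ℕ × ℕ => geo q) hf
  have e : rfl2 a b = fun (W : ℕ × ℕ → ℕ) (p : ℕ × ℕ) =>
      W (if p.1 ≤ a ∧ p.2 ≤ b then (a - p.1, b - p.2) else p) := by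
    funext W p; unfold rfl2; split_ifs <;> rfl
  rw [e]; exact h

theorem map_shift (k : ℕ) (a : ℝ) :
    Measure.map (fun (x : ℕ → ℕ) (n : ℕ) => x (n + k)) (P1 a) = P1 a :=
  Measure.map_infinitePi_infinitePi_of_inj (P := fun _ : ℕ => geo a) (f := fun n => n + k)
    (fun _ _ h => by simpa using h)

theorem map_eval (n : ℕ) (a : ℝ) : Measure.map (fun x : ℕ → ℕ => x n) (P1 a) = geo a :=
  Measure.infinitePi_map_eval (fun _ : ℕ => geo a) n

theorem lintegral_tr (q : ℝ) (f : (ℕ × ℕ → ℕ) → ℝ≥0∞) (hf : Measurable f) :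
    ∫⁻ W, f (tr W) ∂(P2 q) = ∫⁻ W, f W ∂(P2 q) := by
  conv_rhs => rw [← map_tr q]
  rw [lintegral_map hf measurable_tr]

theorem lintegral_hs (k : ℕ) (q : ℝ) (f : (ℕ × ℕ → ℕ) → ℝ≥0∞) (hf : Measurable f) :
    ∫⁻ W, f (hs k W) ∂(P2 q) = ∫⁻ W, f W ∂(P2 q) := by
  conv_rhs => rw [← map_hs k q]
  rw [lintegral_map hf (measurable_hs k)]

/-- Every function on `ℕ` is measurable. -/
theorem measurable_nat {β : Type*} [MeasurableSpace β] (f : ℕ → β) : Measurable f :=
  measurable_from_top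

end Pool.Agent.H84.GL
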