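import Pool.Agent.H99.NS.Defs

/-!
# Geometric last passage percolation: quadrant model with boundary (definitions)

Arrays are indexed from `0`.
-/

open MeasureTheory ProbabilityTheory
open scoped ENNReal

namespace Pool.Agent.H84.GL

open Pool.Agent.H99.NS

/-- The exponential with values in `[0, ∞]`. -/
noncomputable def ex (x : ℝ) : ℝ≥0∞ := ENNReal.ofReal (Real.exp x)

/-- Boundary model: `I i` is the weight of `(i+1, 0)`, `J j` the weight of `(0, j+1)`,
`W (i, j)` the weight of `(i+1, j+1)`, and the origin has weight `0`. -/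
def GB (I J : ℕ → ℕ) (W : ℕ × ℕ → ℕ) : ℕ → ℕ → ℕ
  | 0, 0 => 0
  | (i+1), 0 => GB I J W i 0 + I i
  | 0, (j+1) => GB I J W 0 j + J j
  | (i+1), (j+1) => max (GB I J W i (j+1)) (GB I J W (i+1) j) + W (i, j)

/-- Bulk passage time from `(0,0)` to `(a,b)` in the array `W` (both ends included). -/
def LB (W : ℕ × ℕ → ℕ) (a b : ℕ) : ℕ := Gq (fun i j => W (i, j)) a b

/-- Horizontal shift of an array. -/
def hs (k : ℕ) (W : ℕ × ℕ → ℕ) : ℕ × ℕ → ℕ := fun p => W (p.1 + k, p.2)

/-- Transposed array. -/
def tr (W : ℕ × ℕ → ℕ) : ℕ × ℕ → ℕ := fun p => W (p.2, p.1)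

/-- Passage time of the boundary model to the site with last bulk index `(a,b)` along paths
which leave the horizontal axis after the boundary weights `I 0, ..., I k`, `k0 ≤ k ≤ a`. -/
def Gh (I : ℕ → ℕ) (W : ℕ × ℕ → ℕ) (k0 a b : ℕ) : ℕ :=
  (Finset.Icc k0 a).sup (fun k => ∑ i ∈ Finset.range (k+1), I i + LB (hs k W) (a - k) b)

/-- The same for the vertical axis. -/
def Gv (J : ℕ → ℕ) (W : ℕ × ℕ → ℕ) (k0 a b : ℕ) : ℕ := Gh J (tr W) k0 b a

/-- Reflection of an array in the box `[0,a] × [0,b]`. -/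
def rfl2 (a b : ℕ) (W : ℕ × ℕ → ℕ) : ℕ × ℕ → ℕ :=
  fun p => if p.1 ≤ a ∧ p.2 ≤ b then W (a - p.1, b - p.2) else W p

/-- Horizontal increments on a column: `hst H V W j` is the horizontal increment at height
`j`, if `H` is the horizontal increment at height `0`, `V` the vertical increments of the
left column and `W` the weights of the right column. -/
def hst (H : ℕ) (V W : ℕ → ℕ) : ℕ → ℕ
  | 0 => H
  | (j+1) => W j + (hst H V W j - V j)

/-- Vertical increments of the right column. -/
def vst (H : ℕ) (V W : ℕ → ℕ) (j : ℕ) : ℕ := W j + (V j - hst H V W j)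

/-- Law of the boundary model. -/
noncomputable def PB (α β q : ℝ) : Measure ((ℕ → ℕ) × (ℕ → ℕ) × (ℕ × ℕ → ℕ)) :=
  (P1 α).prod ((P1 β).prod (P2 q))

/-- Law of the boundary model with horizontal boundary only. -/
noncomputable def PW (α q : ℝ) : Measure ((ℕ → ℕ) × (ℕ × ℕ → ℕ)) := (P1 α).prod (P2 q)

instance instPB (α β q : ℝ) : IsProbabilityMeasure (PB α β q) := by unfold PB; infer_instance
instance instPW (α q : ℝ) : IsProbabilityMeasure (PW α q) := by unfold PW; infer_instance

/-- Shape function of the quadrant model. -/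
noncomputable def gg (q x y : ℝ) : ℝ := (q * (x + y) + 2 * √(q * x * y)) / (1 - q)

/-- Characteristic parameter of the direction `(x,y)`. -/
noncomputable def AA (q x y : ℝ) : ℝ := (q * √x + √(q * y)) / (√x + √(q * y))

/-- Logarithm of the moment generating function of the boundary model (as a function of
the logarithmic parameter). -/
noncomputable def fl (q x y α s : ℝ) : ℝ :=
  - x * Real.log (1 - α * Real.exp s) + y * Real.log (1 - q / α * Real.exp (-s))

/-- Parabolic approximation in quadrant coordinates (with `0` for `a = b = 0`). -/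
noncomputable def pq (q : ℝ) (a b : ℝ) : ℝ :=
  mu q * (a + b) - sg q / 2 * (a - b) ^ 2 / (a + b)

/-- Windowed exponential maximum of the boundary sums, centred by `mu q`. -/
noncomputable def ES (q α lam : ℝ) (w j : ℕ) : ℝ≥0∞ :=
  ∫⁻ I, (Finset.Ico (j * w) ((j + 1) * w)).sup
    (fun k => ex (lam * (((∑ i ∈ Finset.range (k+1), I i : ℕ) : ℝ) - mu q * (k + 1)))) ∂(P1 α)

/-- Windowed exponential maximum of the bulk passage times, centred by `mu q`. -/
noncomputable def EL (q lam : ℝ) (w j a b : ℕ) : ℝ≥0∞ :=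
  ∫⁻ W, ((Finset.Ico (j * w) ((j + 1) * w)).filter (fun k => k ≤ a)).sup
    (fun k => ex (lam * ((LB (hs k W) (a - k) b : ℝ) + mu q * (k + 1)))) ∂(P2 q)

end Pool.Agent.H84.GL
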