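import Pool.Agent.H84.GL.Defs

/-!
# Targets of Part A (quadrant model)
-/

open MeasureTheory ProbabilityTheory
open scoped ENNReal

namespace Pool.Agent.H84.GL

open Pool.Agent.H99.NS

/-! ## Measures -/

/-- Tilting of a geometric law. -/
def T_GEO : Prop := ∀ a b : ℝ, 0 < a → a < 1 → 0 < b → b < 1 → ∀ f : ℕ → ℝ≥0∞,
  ∫⁻ k, ENNReal.ofReal ((b / a) ^ k) * f k ∂(geo a) =
    ENNReal.ofReal ((1 - a) / (1 - b)) * ∫⁻ k, f k ∂(geo b)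

/-- Generating function. -/
def T_GEM : Prop := ∀ a r : ℝ, 0 ≤ a → a < 1 → 0 ≤ r → r * a < 1 →
  ∫⁻ k, ENNReal.ofReal (r ^ k) ∂(geo a) = ENNReal.ofReal ((1 - a) / (1 - r * a))

/-- Tail. -/
def T_GET : Prop := ∀ a x : ℝ, 0 < a → a < 1 → 
  geo a {k : ℕ | x ≤ (k : ℝ)} ≤ ENNReal.ofReal (Real.exp (x * Real.log a))

/-- Stochastic monotonicity in the parameter. -/
def T_MO1 : Prop := ∀ a b : ℝ, 0 ≤ a → a ≤ b → b < 1 → ∀ f : ℕ → ℝ≥0∞, Monotone f →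
  ∫⁻ k, f k ∂(geo a) ≤ ∫⁻ k, f k ∂(geo b)

/-- The first coordinate and the others. -/
def T_SH1 : Prop := ∀ a : ℝ,
  Measure.map (fun x : ℕ → ℕ => (x 0, fun n => x (n+1))) (P1 a) = (geo a).prod (P1 a)

/-- The first column and the others. -/
def T_SH2 : Prop := ∀ a : ℝ,
  Measure.map (fun W : ℕ × ℕ → ℕ => ((fun j => W (0, j)), hs 1 W)) (P2 a) = (P1 a).prod (P2 a)

/-- Stochastic monotonicity in the parameter for functions of finitely many coordinates. -/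
def T_MOP : Prop := ∀ a b : ℝ, 0 ≤ a → a ≤ b → b < 1 → ∀ (n : ℕ) (f : (ℕ → ℕ) → ℝ≥0∞),
  Measurable f → Monotone f → (∀ x y : ℕ → ℕ, (∀ i < n, x i = y i) → f x = f y) →
  ∫⁻ x, f x ∂(P1 a) ≤ ∫⁻ x, f x ∂(P1 b)

/-- Maximal inequality for random walks with steps `g (X m) (Y m)`. -/
def T_RWK : Prop := ∀ (a b : ℝ) (g : ℕ → ℕ → ℝ) (lam ρ : ℝ), 0 ≤ lam → 1 ≤ ρ →
  (∫⁻ x, ∫⁻ y, ex (lam * g x y) ∂(geo b) ∂(geo a) ≤ ENNReal.ofReal ρ) →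
  ∀ (k : ℕ) (y : ℝ), ((P1 a).prod (P1 b))
    {x | ∃ i ≤ k, y ≤ ∑ m ∈ Finset.range i, g (x.1 m) (x.2 m)} ≤
      ENNReal.ofReal (Real.exp (-(lam * y)) * ρ ^ k)

/-! ## Burke property and the exact moment generating function -/

/-- One cell. -/
def T_CEL : Prop := ∀ α β : ℝ, 0 < α → α < 1 → 0 < β → β < 1 →
  Measure.map (fun x : ℕ × ℕ × ℕ =>
      (x.2.2 + (x.1 - x.2.1), x.2.2 + (x.2.1 - x.1), min x.1 x.2.1))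
    ((geo α).prod ((geo β).prod (geo (α * β)))) = (geo α).prod ((geo β).prod (geo (α * β)))

/-- One column. -/
def T_COL : Prop := ∀ α β : ℝ, 0 < α → α < 1 → 0 < β → β < 1 →
  Measure.map (fun x : ℕ × (ℕ → ℕ) × (ℕ → ℕ) => vst x.1 x.2.1 x.2.2)
    ((geo α).prod ((P1 β).prod (P1 (α * β)))) = P1 β

/-- Peeling the first column. -/
def T_PEL : Prop := ∀ (I J : ℕ → ℕ) (W : ℕ × ℕ → ℕ) (a b : ℕ),
  GB I J W (a+1) b =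
    I 0 + GB (fun i => I (i+1)) (vst (I 0) J (fun j => W (0, j))) (hs 1 W) a b

/-- The moment generating function of the boundary model. -/
def T_MGF : Prop := ∀ q α₁ α₂ : ℝ, 0 < q → q < 1 → q < α₁ → α₁ < 1 → q < α₂ → α₂ < 1 →
  ∀ a b : ℕ, ∫⁻ x, ENNReal.ofReal ((α₂ / α₁) ^ (GB x.1 x.2.1 x.2.2 a b)) ∂(PB α₁ (q / α₂) q) =
    ENNReal.ofReal (((1 - α₁) / (1 - α₂)) ^ a * ((1 - q / α₂) / (1 - q / α₁)) ^ b)

/-- Vertical increments on a column of the stationary model. -/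
def T_VRO : Prop := ∀ α β : ℝ, 0 < α → α < 1 → 0 < β → β < 1 → ∀ a : ℕ,
  Measure.map (fun (x : (ℕ → ℕ) × (ℕ → ℕ) × (ℕ × ℕ → ℕ)) (j : ℕ) =>
      GB x.1 x.2.1 x.2.2 a (j+1) - GB x.1 x.2.1 x.2.2 a j) (PB α β (α * β)) = P1 β

/-- Horizontal increments on a row of the stationary model. -/
def T_HRO : Prop := ∀ α β : ℝ, 0 < α → α < 1 → 0 < β → β < 1 → ∀ b : ℕ,
  Measure.map (fun (x : (ℕ → ℕ) × (ℕ → ℕ) × (ℕ × ℕ → ℕ)) (k : ℕ) =>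
      GB x.1 x.2.1 x.2.2 (k+1) b - GB x.1 x.2.1 x.2.2 k b) (PB α β (α * β)) = P1 α

/-! ## Deterministic facts -/

/-- Decomposition according to the exit point. -/
def T_EXI : Prop := ∀ (I J : ℕ → ℕ) (W : ℕ × ℕ → ℕ) (a b : ℕ),
  GB I J W (a+1) (b+1) = max (Gh I W 0 a b) (Gv J W 0 a b)

/-- Late exit is a sum of boundary weights and an exit in the shifted model. -/
def T_EXS : Prop := ∀ (I : ℕ → ℕ) (W : ℕ × ℕ → ℕ) (k0 a b : ℕ), k0 ≤ a →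
  Gh I W k0 a b = ∑ i ∈ Finset.range k0, I i + Gh (fun i => I (i + k0)) (hs k0 W) 0 (a - k0) b

/-- Path reversal. -/
def T_REV : Prop := ∀ (W : ℕ × ℕ → ℕ) (a b k : ℕ), k ≤ a →
  LB (hs k W) (a - k) b = LB (rfl2 a b W) (a - k) b

/-- Symmetry under transposition. -/
def T_TRA : Prop := ∀ (I J : ℕ → ℕ) (W : ℕ × ℕ → ℕ) (a b : ℕ),
  GB I J W a b = GB J I (tr W) b a ∧ LB W a b = LB (tr W) b a

/-- Crossing lemma: vertical boundary weights decrease the horizontal increments. -/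
def T_CMV : Prop := ∀ (J : ℕ → ℕ) (W : ℕ × ℕ → ℕ) (k a b : ℕ), k ≤ a →
  Gv J W 0 a b + LB W k b ≤ Gv J W 0 k b + LB W a b

/-! ## Calculus -/

/-- Exact formula for the derivative of `fl` minus the shape function. -/
def T_CA1 : Prop := ∀ q x y α : ℝ, 0 < q → q < 1 → 0 < x → 0 < y → q < α → α < 1 →
  x * (α / (1 - α)) + y * (q / (α - q)) - gg q x y =
    (√x * (α - q) - √(q * y) * (1 - α)) ^ 2 / ((1 - q) * (1 - α) * (α - q))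

/-- Cubic bounds for `fl` around the characteristic parameter. -/
def T_CA2 : Prop := ∀ q : ℝ, 0 < q → q < 1 → ∃ c C θ₀ : ℝ, 0 < c ∧ 0 < C ∧ 0 < θ₀ ∧ θ₀ ≤ 1 ∧
  ∀ x y : ℝ, 0 < x → 0 < y → x ≤ 3 * y → y ≤ 3 * x →
    (∀ s : ℝ, |s| ≤ 4 * θ₀ → q < AA q x y * Real.exp s ∧ AA q x y * Real.exp s < 1) ∧
    ∀ s t : ℝ, -(4 * θ₀) ≤ s → s ≤ t → t ≤ 4 * θ₀ →
      c * (x + y) * (t ^ 3 - s ^ 3) ≤
        fl q x y (AA q x y) t - fl q x y (AA q x y) s - (t - s) * gg q x y ∧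
      fl q x y (AA q x y) t - fl q x y (AA q x y) s - (t - s) * gg q x y ≤
        C * (x + y) * (t ^ 3 - s ^ 3)

/-- Link between `fl` and the value of the moment generating function. -/
def T_CA3 : Prop := ∀ (q α s t : ℝ) (a b : ℕ), 0 < q → q < 1 → 0 < α →
  q < α * Real.exp s → α * Real.exp s < 1 → q < α * Real.exp t → α * Real.exp t < 1 →
  ((1 - α * Real.exp s) / (1 - α * Real.exp t)) ^ a *
    ((1 - q / (α * Real.exp t)) / (1 - q / (α * Real.exp s))) ^ b =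
  Real.exp (fl q a b α t - fl q a b α s)

/-- The gain of a late exit. -/
def T_CA4 : Prop := ∀ x θ : ℝ, 0 < x → 0 ≤ θ → x * Real.exp θ < 1 →
  (1 - x * Real.exp (-θ)) * (1 - x * Real.exp θ) / (1 - x) ^ 2 ≤ Real.exp (-(x * θ ^ 2))

/-- Exponential moment of one step of the difference of two walks. -/
def T_CA5 : Prop := ∀ β₁ : ℝ, 0 < β₁ → β₁ < 1 → ∃ C θ₀ : ℝ, 0 < C ∧ 0 < θ₀ ∧
  ∀ x θ : ℝ, 0 < x → x ≤ β₁ → 0 ≤ θ → θ ≤ θ₀ →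
    x * Real.exp (2 * θ) < 1 ∧ (1 - x * Real.exp θ) / (1 - x * Real.exp (2 * θ)) ≤ C ∧
    (1 - x * Real.exp θ) / (1 - x * Real.exp (2 * θ)) *
      ((1 - x * Real.exp (-θ)) / (1 - x * Real.exp (-(2 * θ)))) ≤ Real.exp (C * θ ^ 2)

/-- Upper bound for the symmetric generating function. -/
def T_PSI : Prop := ∀ β₁ : ℝ, 0 < β₁ → β₁ < 1 → ∃ C l₀ : ℝ, 0 < C ∧ 0 < l₀ ∧
  ∀ β lam : ℝ, 0 < β → β ≤ β₁ → 0 ≤ lam → lam ≤ l₀ →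
    β * Real.exp (lam / 2) < 1 ∧
    Real.log ((1 - β * Real.exp (-(lam / 2))) / (1 - β * Real.exp (lam / 2))) ≤
      lam * (β / (1 - β)) + C * lam ^ 3

/-- Lower bound for the symmetric generating function. -/
def T_PSL : Prop := ∀ β : ℝ, 0 < β → β < 1 → ∃ c : ℝ, 0 < c ∧
  ∀ lam : ℝ, 0 ≤ lam → β * Real.exp (lam / 2) < 1 →
    lam * (β / (1 - β)) + c * lam ^ 3 ≤
      Real.log ((1 - β * Real.exp (-(lam / 2))) / (1 - β * Real.exp (lam / 2)))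

/-- The linear parameter lies below the parabola (all directions). -/
def T_PAR : Prop := ∀ r x N : ℝ, 0 < r → r < 1 → -1 ≤ x → x ≤ 1 → 0 ≤ N →
  r ^ 2 < r * (1 - x * (1 - r) / (1 + r)) ∧ r * (1 - x * (1 - r) / (1 + r)) < 1 ∧
  (1 + x) / 2 * N * (r * (1 - x * (1 - r) / (1 + r)) / (1 - r * (1 - x * (1 - r) / (1 + r)))) +
    (1 - x) / 2 * N * (r ^ 2 / (r * (1 - x * (1 - r) / (1 + r)) - r ^ 2)) ≤
    r / (1 - r) * N - r / (1 - r ^ 2) / 2 * x ^ 2 * N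

/-- Comparison of the shape function with the parabola. -/
def T_GGP : Prop := ∀ q : ℝ, 0 < q → q < 1 → ∃ C : ℝ, 0 < C ∧ ∀ a b : ℕ,
  1 ≤ a + b → (|(a : ℝ) - b|) ^ 4 ≤ ((a : ℝ) + b) ^ 3 →
    pq q a b - C ≤ gg q (a + 1) (b + 1)

/-! ## Estimates in the quadrant model -/

/-- Upper bound for the moment generating function of the bulk model, all directions. -/
def T_UMQ : Prop := ∀ q : ℝ, 0 < q → q < 1 → ∃ C l₀ : ℝ, 0 < C ∧ 0 < l₀ ∧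
  ∀ lam : ℝ, 0 ≤ lam → lam ≤ l₀ → ∀ a b : ℕ, 1 ≤ a + b →
    ∫⁻ W, ex (lam * LB W a b) ∂(P2 q) ≤
      ex (lam * pq q a b + C * (((a : ℝ) + b) * lam ^ 3 + lam))

/-- Lower tail of the model with heavy boundaries. -/
def T_GLO : Prop := ∀ q : ℝ, 0 < q → q < 1 → ∃ c θ₀ : ℝ, 0 < c ∧ 0 < θ₀ ∧
  ∀ (m n : ℕ), 1 ≤ m → 1 ≤ n → m ≤ 3 * n → n ≤ 3 * m → ∀ θ σ z : ℝ, 0 < θ → θ ≤ θ₀ →
    (σ = 0 ∨ σ = θ) →
    PB (AA q m n * Real.exp σ) (q / (AA q m n * Real.exp (-θ))) q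
      {x | (GB x.1 x.2.1 x.2.2 m n : ℝ) ≤ gg q m n + z} ≤
      ex ((θ + σ) * z - c * (m + n) * θ ^ 3)

/-- Moment generating function of the horizontal exit part. -/
def T_GHM : Prop := ∀ q α α₁ α₂ : ℝ, 0 < q → q < 1 → 0 < α → α ≤ α₁ → q < α₁ → α₁ < α₂ →
  α₂ < 1 → ∀ k0 a b : ℕ, k0 ≤ a →
    ∫⁻ x, ENNReal.ofReal ((α₂ / α₁) ^ (Gh x.1 x.2 k0 a b)) ∂(PW α q) ≤
      ENNReal.ofReal (((1 - α) / (1 - α₂ / α₁ * α)) ^ k0 *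
        (((1 - α₁) / (1 - α₂)) ^ (a + 1 - k0) * ((1 - q / α₂) / (1 - q / α₁)) ^ (b + 1)))

/-- Upper tail of the late exit part with heavy boundary. -/
def T_GHU : Prop := ∀ q : ℝ, 0 < q → q < 1 → ∃ C θ₀ : ℝ, 0 < C ∧ 0 < θ₀ ∧
  ∀ (k0 a b : ℕ), a + 1 ≤ 3 * (b + 1) → b + 1 ≤ 3 * (a + 1) → k0 ≤ a →
    ∀ θ z : ℝ, 0 < θ → θ ≤ θ₀ →
    PW (AA q (a+1 : ℕ) (b+1 : ℕ) * Real.exp θ) q
      {x | gg q (a+1 : ℕ) (b+1 : ℕ) + z ≤ (Gh x.1 x.2 k0 a b : ℝ)} ≤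
      ex (-(θ * z) - q * θ ^ 2 * k0 + C * (a + b + 2) * θ ^ 3)

/-- Upper tail of the exit part with critical or light boundary. -/
def T_GHL : Prop := ∀ q : ℝ, 0 < q → q < 1 → ∃ C θ₀ : ℝ, 0 < C ∧ 0 < θ₀ ∧
  ∀ (a b : ℕ), a + 1 ≤ 3 * (b + 1) → b + 1 ≤ 3 * (a + 1) →
    ∀ α θ z : ℝ, 0 < α → α ≤ AA q (a+1 : ℕ) (b+1 : ℕ) → 0 < θ → θ ≤ θ₀ →
    PW α q {x | gg q (a+1 : ℕ) (b+1 : ℕ) + z ≤ (Gh x.1 x.2 0 a b : ℝ)} ≤
      ex (-(θ * z) + C * (a + b + 2) * θ ^ 3)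

/-- Bad event for the heavy boundary model: the passage time is small or the exit is late. -/
def T_EXB : Prop := ∀ q : ℝ, 0 < q → q < 1 → ∃ K c θ₀ : ℝ, 0 < K ∧ 0 < c ∧ 0 < θ₀ ∧
  ∀ (k0 a b : ℕ), a + 1 ≤ 3 * (b + 1) → b + 1 ≤ 3 * (a + 1) → k0 ≤ a → k0 ≤ b →
    ∀ θ : ℝ, 0 < θ → θ ≤ θ₀ → K * (a + b + 2) * θ ≤ k0 →
    PB (AA q (a+1 : ℕ) (b+1 : ℕ) * Real.exp θ)
        (q / (AA q (a+1 : ℕ) (b+1 : ℕ) * Real.exp (-θ))) q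
      {x | (GB x.1 x.2.1 x.2.2 (a+1) (b+1) : ℝ) ≤ gg q (a+1 : ℕ) (b+1 : ℕ) ∨
        GB x.1 x.2.1 x.2.2 (a+1) (b+1) ≤ Gh x.1 x.2.2 k0 a b ∨
        GB x.1 x.2.1 x.2.2 (a+1) (b+1) ≤ Gv x.2.1 x.2.2 k0 a b} ≤
      3 * ex (-(c * (a + b + 2) * θ ^ 3))

/-- In the stationary model of parameter below the characteristic one, the horizontal exit
is unlikely. -/
def T_NEC : Prop := ∀ q : ℝ, 0 < q → q < 1 → ∃ c θ₀ : ℝ, 0 < c ∧ 0 < θ₀ ∧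
  ∀ (a b : ℕ), a + 1 ≤ 3 * (b + 1) → b + 1 ≤ 3 * (a + 1) → ∀ θ : ℝ, 0 < θ → θ ≤ θ₀ →
    PB (AA q (a+1 : ℕ) (b+1 : ℕ) * Real.exp (-θ))
        (q / (AA q (a+1 : ℕ) (b+1 : ℕ) * Real.exp (-θ))) q
      {x | Gv x.2.1 x.2.2 0 a b < Gh x.1 x.2.2 0 a b} ≤
      3 * ex (-(c * (a + b + 2) * θ ^ 3))

/-- Control of the horizontal increments of the bulk model by a stationary model. -/
def T_INC : Prop := ∀ q α α' lam ρ y : ℝ, 0 < q → q < 1 → 0 < α → α < 1 → q < α' → α' < 1 →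
  0 ≤ lam → α * Real.exp lam < 1 → 1 ≤ ρ →
  (1 - α) / (1 - α * Real.exp lam) * ((1 - α') / (1 - α' * Real.exp (-lam))) ≤ ρ →
  ∀ a b k0 : ℕ,
    PW α q {x | ∃ k < k0, k ≤ a ∧ (LB x.2 a b : ℝ) + y ≤
        ((∑ i ∈ Finset.range (k+1), x.1 i + LB (hs k x.2) (a - k) b : ℕ) : ℝ)} ≤
      PB α' (q / α') q {x | Gv x.2.1 x.2.2 0 a b < Gh x.1 x.2.2 0 a b} +
        ENNReal.ofReal (Real.exp (-(lam * y)) * ((1 - α) / (1 - α * Real.exp lam)) * ρ ^ k0)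

/-- One-parameter form of the lower tail of the bulk model. -/
def T_LTP : Prop := ∀ q : ℝ, 0 < q → q < 1 → ∃ C c M θ₀ : ℝ, 0 < C ∧ 0 < c ∧ 0 < M ∧ 0 < θ₀ ∧
  ∀ a b : ℕ, a + 1 ≤ 3 * (b + 1) → b + 1 ≤ 3 * (a + 1) → ∀ θ : ℝ, 0 < θ → θ ≤ θ₀ →
    P2 q {W | (LB W a b : ℝ) ≤ gg q (a+1 : ℕ) (b+1 : ℕ) - M * (a + b + 2) * θ ^ 2} ≤
      ENNReal.ofReal (C * Real.exp (-(c * (a + b + 2) * θ ^ 3)))

/-- Lower tail of the bulk model. -/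
def T_LTQ : Prop := ∀ q : ℝ, 0 < q → q < 1 → ∃ C c : ℝ, 0 < C ∧ 0 < c ∧
  ∀ a b : ℕ, a + 1 ≤ 3 * (b + 1) → b + 1 ≤ 3 * (a + 1) → ∀ x : ℝ, 0 ≤ x →
    P2 q {W | (LB W a b : ℝ) ≤ gg q (a+1 : ℕ) (b+1 : ℕ) - x * ((a : ℝ) + b + 2) ^ ((1:ℝ)/3)} ≤
      ENNReal.ofReal (C * Real.exp (-(c * x ^ ((3:ℝ)/2))))

/-! ## Lower bound of the upper tail, quadrant part -/

/-- Lower bound for the exponential moment of the horizontal exit part. -/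
def T_MGS : Prop := ∀ q : ℝ, 0 < q → q < 1 → ∃ c l₀ : ℝ, 0 < c ∧ 0 < l₀ ∧
  ∀ lam : ℝ, 0 < lam → lam ≤ l₀ → √q * Real.exp (3 * lam) < 1 ∧ ∀ a : ℕ,
    ex (2 * ((a : ℝ) + 1) * (lam * mu q + c * lam ^ 3)) ≤
      2 * ∫⁻ x, ex (lam * (Gh x.1 x.2 0 a a : ℝ)) ∂(PW (√q * Real.exp (-(lam / 2))) q)

/-- Window decomposition of the exit point. -/
def T_WIN : Prop := ∀ (q α lam : ℝ), 0 ≤ lam → ∀ w a b : ℕ, 1 ≤ w →
  ∫⁻ x, ex (lam * (Gh x.1 x.2 0 a b : ℝ)) ∂(PW α q) ≤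
    ∑ j ∈ Finset.range (a / w + 1), ES q α lam w j * EL q lam w j a b

/-- Exponential maximum of the boundary sums in a window. -/
def T_RWM : Prop := ∀ q : ℝ, 0 < q → q < 1 → ∃ C l₀ : ℝ, 0 < C ∧ 0 < l₀ ∧
  ∀ lam : ℝ, 0 < lam → lam ≤ l₀ → ∀ w j : ℕ, 1 ≤ w →
    ES q (√q * Real.exp (-(lam / 2))) lam w j ≤
      6 * ex (C * lam ^ 2 * w + C * lam ^ 3 * (j * w))

end Pool.Agent.H84.GL
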