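import Pool.Agent.H84.GL.Targets2

/-!
# Targets of Part A: sharp constants
-/

open MeasureTheory ProbabilityTheory
open scoped ENNReal

namespace Pool.Agent.H84.GL

open Pool.Agent.H99.NS

/-- The sharp cubic constant as a function of the parameter of the boundary weights. -/
noncomputable def cc (β : ℝ) : ℝ := β * (1 + β) / (24 * (1 - β) ^ 3)

/-- The sharp cubic constant of the vertical direction. -/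
noncomputable def cf (q : ℝ) : ℝ := cc (√q)

/-- The sharp constant of the upper tail: `P(T ≥ mu N + K N^(1/3)) = exp(-(cst+o(1)) K^(3/2))`. -/
noncomputable def cst (q : ℝ) : ℝ := 2 / 3 * (3 * cf q) ^ (-(1:ℝ)/2)

/-- Sharp lower bound for the symmetric generating function. -/
def T_PLS : Prop := ∀ β : ℝ, 0 < β → β < 1 →
  ∀ lam : ℝ, 0 ≤ lam → β * Real.exp (lam / 2) < 1 →
    lam * (β / (1 - β)) + cc β * lam ^ 3 ≤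
      Real.log ((1 - β * Real.exp (-(lam / 2))) / (1 - β * Real.exp (lam / 2)))

/-- Sharp upper bound for the symmetric generating function. -/
def T_PSS : Prop := ∀ β₀ ε : ℝ, 0 < β₀ → β₀ < 1 → 0 < ε → ∃ δ : ℝ, 0 < δ ∧
  ∀ β lam : ℝ, |β - β₀| ≤ δ → 0 ≤ lam → lam ≤ δ →
    0 < β ∧ β * Real.exp (lam / 2) < 1 ∧
    Real.log ((1 - β * Real.exp (-(lam / 2))) / (1 - β * Real.exp (lam / 2))) ≤
      lam * (β / (1 - β)) + (cc β₀ + ε) * lam ^ 3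

/-- Sharp upper bound for the moment generating function near the diagonal. -/
def T_UMS : Prop := ∀ q ε : ℝ, 0 < q → q < 1 → 0 < ε → ∃ C δ : ℝ, 0 < C ∧ 0 < δ ∧
  ∀ lam : ℝ, 0 ≤ lam → lam ≤ δ → ∀ a b : ℕ, 1 ≤ a + b → |(a : ℝ) - b| ≤ δ * ((a : ℝ) + b) →
    ∫⁻ W, ex (lam * LB W a b) ∂(P2 q) ≤
      ex (lam * pq q a b + (cf q + ε) * ((a : ℝ) + b) * lam ^ 3 + C * lam)

/-- The same for `T`. -/
def D_UTMS : Prop := ∀ q ε : ℝ, 0 < q → q < 1 → 0 < ε → ∃ C δ : ℝ, 0 < C ∧ 0 < δ ∧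
  ∀ lam : ℝ, 0 ≤ lam → lam ≤ δ → ∀ u v : Site, Reach u v → u.1 < v.1 →
    |dsp u v| ≤ δ * len u v →
    ∫⁻ ω, ex (lam * T ω u v) ∂(PE q) ≤
      ex (lam * par q u v + (cf q + ε) * len u v * lam ^ 3 + C * lam)

/-- (UTS) Sharp upper tail. -/
def D_UTS : Prop := ∀ q : ℝ, 0 < q → q < 1 → ∀ ε : ℝ, 0 < ε → ∃ K₀ : ℝ, 1 ≤ K₀ ∧
  ∀ K : ℝ, K₀ ≤ K → ∃ N₀ : ℝ, ∀ u v : Site, Reach u v → u.1 < v.1 → N₀ ≤ len u v →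
    |dsp u v| ≤ K * (len u v) ^ ((2:ℝ)/3) →
    PE q {ω | par q u v + K * (len u v) ^ ((1:ℝ)/3) ≤ T ω u v} ≤
      ENNReal.ofReal (Real.exp (-((cst q - ε) * K ^ ((3:ℝ)/2))))

/-- (LTS) Sharp lower bound of the upper tail. -/
def D_LTS : Prop := ∀ q : ℝ, 0 < q → q < 1 → ∀ ε : ℝ, 0 < ε → ∃ K₀ : ℝ, 1 ≤ K₀ ∧
  ∀ K : ℝ, K₀ ≤ K → ∃ n₀ : ℕ, ∀ n : ℕ, n₀ ≤ n →
    ENNReal.ofReal (Real.exp (-((cst q + ε) * K ^ ((3:ℝ)/2)))) ≤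
      PE q {ω | mu q * (2 * n) + K * ((2 * n : ℕ) : ℝ) ^ ((1:ℝ)/3) ≤ T ω (0, 0) ((2 * n : ℕ), 0)}

/-- Sharp lower bound for the exponential moment of the horizontal exit part. -/
def T_MG2 : Prop := ∀ q : ℝ, 0 < q → q < 1 → ∃ l₀ : ℝ, 0 < l₀ ∧
  ∀ lam : ℝ, 0 < lam → lam ≤ l₀ → ∀ a : ℕ,
    ex (2 * ((a : ℝ) + 1) * (lam * mu q + cf q * lam ^ 3)) ≤
      2 * ∫⁻ x, ex (lam * (Gh x.1 x.2 0 a a : ℝ)) ∂(PW (√q * Real.exp (-(lam / 2))) q)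

/-- Bound for the windowed exponential maxima with sharp cubic constant (windows near the
corner). -/
def T_ELS : Prop := ∀ q : ℝ, 0 < q → q < 1 → ∃ c : ℝ, 0 < c ∧ ∀ ε : ℝ, 0 < ε →
  ∃ C δ : ℝ, 0 < C ∧ 0 < δ ∧ ∃ a₀ : ℕ,
  ∀ lam : ℝ, 0 < lam → lam ≤ δ → ∀ a w j : ℕ, a₀ ≤ a → 1 ≤ w →
    (w : ℝ) ≤ δ * ((a : ℝ) + 1) ^ ((3:ℝ)/4) →
    j * w ≤ a → (j : ℝ) * w ≤ δ * (a + 1) →
    EL q lam w j a a ≤ ex (2 * ((a : ℝ) + 1) * mu q * lam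
      + (cf q + ε) * (2 * ((a : ℝ) + 1)) * lam ^ 3 - c * lam * ((j : ℝ) * w) ^ 2 / (a + 1)
      + C * lam * ((w : ℝ) ^ 2 / (a + 1) + ((a : ℝ) + 1) ^ ((1:ℝ)/3)) + C)

/-- A window near the corner carries the sharp exponential moment. -/
def T_WNS : Prop := ∀ q : ℝ, 0 < q → q < 1 → ∀ ε : ℝ, 0 < ε → ∃ L₀ : ℝ, 1 ≤ L₀ ∧
  ∀ L : ℝ, L₀ ≤ L → ∃ a₀ : ℕ, ∀ a : ℕ, a₀ ≤ a → ∀ lam : ℝ,
    L / 2 ≤ lam * ((a : ℝ) + 1) ^ ((1:ℝ)/3) → lam * ((a : ℝ) + 1) ^ ((1:ℝ)/3) ≤ L →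
    ∃ j w : ℕ, 1 ≤ w ∧ (w : ℝ) ≤ 2 * ((a : ℝ) + 1) ^ ((2:ℝ)/3) ∧ (j : ℝ) ≤ ε * L ∧ j * w ≤ a ∧
      ex (2 * ((a : ℝ) + 1) * mu q * lam + (cf q - ε) * (2 * ((a : ℝ) + 1)) * lam ^ 3) ≤
        EL q lam w j a a

/-- Sharp lower bound for the exponential moment of the passage time. -/
def D_LMG : Prop := ∀ q : ℝ, 0 < q → q < 1 → ∀ ε : ℝ, 0 < ε → ∃ L₀ : ℝ, 1 ≤ L₀ ∧
  ∀ L : ℝ, L₀ ≤ L → ∃ n₀ : ℕ, ∀ n : ℕ, n₀ ≤ n → ∀ lam : ℝ,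
    lam = L * ((2 * n : ℕ) : ℝ) ^ (-(1:ℝ)/3) →
    ex (lam * mu q * (2 * n) + (cf q - ε) * L ^ 3) ≤
      ∫⁻ ω, ex (lam * T ω (0, 0) ((2 * n : ℕ), 0)) ∂(PE q)

end Pool.Agent.H84.GL
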